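import Pool.Agent.U285.EG.G1
import Mathlib.GroupTheory.GroupAction.Quotient
import Mathlib.Data.Setoid.Basic

namespace Pool.Agent.U285.EG

theorem iso_edges {p : ℕ} {G H : SimpleGraph (Fin p)} (f : G ≃g H) :
    G.edgeSet.ncard = H.edgeSet.ncard := by
  rw [← Nat.card_coe_set_eq, ← Nat.card_coe_set_eq]
  exact Nat.card_congr f.mapEdgeSet

theorem iso_eulerian {p : ℕ} {G H : SimpleGraph (Fin p)} (f : G ≃g H) (hG : IsEulerian G) :
    IsEulerian H := by
  refine ⟨fun v => ?_, (SimpleGraph.Iso.connected_iff f).1 hG.2⟩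
  have h1 := hG.1 (f.symm v)
  have h2 : (G.neighborSet (f.symm v)).ncard = (H.neighborSet (f (f.symm v))).ncard := by
    rw [← Nat.card_coe_set_eq, ← Nat.card_coe_set_eq]
    exact Nat.card_congr (f.mapNeighborSet (f.symm v))
  rw [h2] at h1
  have h3 : f (f.symm v) = v := f.apply_symm_apply v
  rwa [h3] at h1

/-- The Eulerian graphs on `Fin p` with `q` edges. -/
def Xq (p q : ℕ) : Type := {G : SimpleGraph (Fin p) // IsEulerian G ∧ G.edgeSet.ncard = q}

instance (p q : ℕ) : Finite (Xq p q) := by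
  unfold Xq
  infer_instance

/-- Permutations act on the Eulerian graphs with `q` edges. -/
instance act (p q : ℕ) : MulAction (Equiv.Perm (Fin p)) (Xq p q) where
  smul α G := ⟨G.1.map α, iso_eulerian (SimpleGraph.Iso.map α G.1) G.2.1,
    (iso_edges (SimpleGraph.Iso.map α G.1)).symm.trans G.2.2⟩
  one_smul G := Subtype.ext (SimpleGraph.map_id G.1)
  mul_smul α β G := Subtype.ext (SimpleGraph.map_map (G := G.1) β α).symm

theorem act_val {p q : ℕ} (α : Equiv.Perm (Fin p)) (G : Xq p q) : (α • G).1 = G.1.map α := rfl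

/-- The isomorphism class. -/
def cls {p q : ℕ} (G : Xq p q) : Quotient (isoSetoid p) := Quotient.mk (isoSetoid p) G.1

theorem orbit_ker (p q : ℕ) :
    MulAction.orbitRel (Equiv.Perm (Fin p)) (Xq p q) = Setoid.ker (cls (p := p) (q := q)) := by
  ext G H
  rw [MulAction.orbitRel_apply, Setoid.ker_def, MulAction.mem_orbit_iff]
  constructor
  · rintro ⟨α, hα⟩
    apply Quotient.sound
    have h1 : G.1 = H.1.map α := by rw [← hα]; rfl
    rw [h1]
    exact ⟨(SimpleGraph.Iso.map α H.1).symm⟩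
  · intro h
    obtain ⟨f⟩ := Quotient.exact h
    refine ⟨f.symm.toEquiv, Subtype.ext ?_⟩
    rw [act_val]
    ext a b
    rw [SimpleGraph.map_adj']
    constructor
    · rintro ⟨_, x, y, hxy, rfl, rfl⟩
      exact (f.symm.map_adj_iff).2 hxy
    · intro hab
      refine ⟨hab.ne, f a, f b, (f.map_adj_iff).2 hab, ?_, ?_⟩
      · exact f.symm_apply_apply a
      · exact f.symm_apply_apply b

theorem card_orbits (p q : ℕ) :
    Nat.card (Quotient (MulAction.orbitRel (Equiv.Perm (Fin p)) (Xq p q))) = u p q := by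
  rw [orbit_ker, Nat.card_congr (Setoid.quotientKerEquivRange _), Nat.card_coe_set_eq, u]
  congr 1
  ext C
  constructor
  · rintro ⟨G, rfl⟩
    exact ⟨G.1, rfl, G.2.1, G.2.2⟩
  · rintro ⟨G, rfl, h1, h2⟩
    exact ⟨⟨G, h1, h2⟩, rfl⟩

theorem burnside_q (p q : ℕ) :
    ∑ α : Equiv.Perm (Fin p), Nat.card (MulAction.fixedBy (Xq p q) α) = u p q * p.factorial := by
  classical
  have : Fintype (Xq p q) := Fintype.ofFinite _
  have h := MulAction.sum_card_fixedBy_eq_card_orbits_mul_card_group (Equiv.Perm (Fin p)) (Xq p q)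
  rw [Fintype.card_perm, Fintype.card_fin] at h
  rw [← card_orbits, Nat.card_eq_fintype_card, ← h]
  exact Finset.sum_congr rfl (fun α _ => Nat.card_eq_fintype_card)

open Classical in
theorem V_eq (p : ℕ) (α : Equiv.Perm (Fin p)) (x : ℝ) :
    V α x = ∑ q ∈ Finset.range (p.choose 2 + 1),
      (Nat.card (MulAction.fixedBy (Xq p q) α) : ℝ) * x ^ q := by
  rw [V, ← Finset.sum_fiberwise_of_maps_to (g := fun G : SimpleGraph (Fin p) => G.edgeSet.ncard)
    (t := Finset.range (p.choose 2 + 1))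
    (fun G _ => Finset.mem_range.2 (Nat.lt_succ_of_le (edges_le G)))]
  refine Finset.sum_congr rfl (fun q _ => ?_)
  rw [Finset.sum_congr rfl (g := fun _ => x ^ q) (by
    intro G hG
    rw [(Finset.mem_filter.1 hG).2])]
  rw [Finset.sum_const, nsmul_eq_mul]
  congr 2
  rw [← Fintype.card_coe, ← Nat.card_eq_fintype_card]
  refine Nat.card_congr ⟨fun G => ⟨⟨G.1, ?_, ?_⟩, ?_⟩, fun G => ⟨G.1.1, ?_⟩, ?_, ?_⟩
  · exact (Finset.mem_filter.1 (Finset.mem_filter.1 G.2).1).2.1
  · exact (Finset.mem_filter.1 G.2).2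
  · rw [MulAction.mem_fixedBy]
    exact Subtype.ext (Finset.mem_filter.1 (Finset.mem_filter.1 G.2).1).2.2
  · have h1 := G.2
    rw [MulAction.mem_fixedBy] at h1
    have h2 : G.1.1.map α = G.1.1 := congrArg Subtype.val h1
    exact Finset.mem_filter.2 ⟨Finset.mem_filter.2 ⟨Finset.mem_univ _, G.1.2.1, h2⟩, G.1.2.2⟩
  · intro G; rfl
  · intro G; rfl

/-- Burnside's lemma for `U_p(x)`. -/
theorem burnside (p : ℕ) (x : ℝ) :
    (p.factorial : ℝ) * U p x = ∑ α : Equiv.Perm (Fin p), V α x := by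
  simp only [V_eq]
  rw [Finset.sum_comm, U, Finset.mul_sum]
  refine Finset.sum_congr rfl (fun q _ => ?_)
  rw [← Finset.sum_mul, ← Nat.cast_sum, burnside_q]
  push_cast
  ring

end Pool.Agent.U285.EG
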