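import Pool.Agent.U285.EG.G1

namespace Pool.Agent.U285.EG

theorem exists_eulerian_card {p : ℕ} (hp : 3 ≤ p) :
    ∃ G : SimpleGraph (Fin p), IsEulerian G ∧ G.edgeSet.ncard = p := by
  classical
  obtain ⟨n, rfl⟩ : ∃ n, p = n + 3 := ⟨p - 3, by omega⟩
  refine ⟨SimpleGraph.cycleGraph (n + 3), ⟨?_, SimpleGraph.cycleGraph_connected⟩, ?_⟩
  · intro v
    rw [ncard_neighborSet, SimpleGraph.cycleGraph_degree_three_le]
    exact even_two
  · rw [ncard_edgeSet]
    have h := (SimpleGraph.cycleGraph (n + 3)).sum_degrees_eq_twice_card_edges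
    simp only [SimpleGraph.cycleGraph_degree_three_le, Finset.sum_const, Finset.card_univ,
      Fintype.card_fin, smul_eq_mul] at h
    omega

theorem isLeast_edges {p : ℕ} (hp : 3 ≤ p) :
    IsLeast {n | ∃ G : SimpleGraph (Fin p), IsEulerian G ∧ G.edgeSet.ncard = n} p := by
  refine ⟨exists_eulerian_card hp, ?_⟩
  rintro n ⟨G, hG, rfl⟩
  exact le_edges (by omega) hG

open Polynomial in
theorem coeff_Upoly {p : ℕ} (hp : 3 ≤ p) : (Upoly p).coeff p ≠ 0 := by
  obtain ⟨G, hG, hGp⟩ := exists_eulerian_card hp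
  have h1 : p ≤ p.choose 2 := by
    have := edges_le G
    rwa [hGp] at this
  have h2 : (Upoly p).coeff p = (u p p : ℝ) := by
    rw [Upoly, finsetSum_coeff]
    simp only [coeff_C_mul_X_pow]
    rw [Finset.sum_ite_eq, if_pos (Finset.mem_range.2 (by omega))]
  rw [h2]
  have h3 := u_pos hG
  rw [hGp] at h3
  exact_mod_cast h3.ne'

open Polynomial in
theorem dvd_Vpoly_least {p : ℕ} (α : Equiv.Perm (Fin p)) {e : ℕ}
    (he : IsLeast {n | ∃ G : SimpleGraph (Fin p), IsEulerian G ∧ G.map α = G ∧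
      G.edgeSet.ncard = n} e) : (X : ℝ[X]) ^ e ∣ Vpoly α := by
  classical
  apply Finset.dvd_sum
  intro G hG
  rw [Finset.mem_filter] at hG
  exact pow_dvd_pow _ (he.2 ⟨G, hG.2.1, hG.2.2, rfl⟩)

open Polynomial in
theorem coeff_Vpoly_least {p : ℕ} (α : Equiv.Perm (Fin p)) {e : ℕ}
    (he : IsLeast {n | ∃ G : SimpleGraph (Fin p), IsEulerian G ∧ G.map α = G ∧
      G.edgeSet.ncard = n} e) : (Vpoly α).coeff e ≠ 0 := by
  classical
  obtain ⟨G, hG, hGα, hGe⟩ := he.1
  have h1 : 0 < (Vpoly α).coeff e := by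
    rw [Vpoly, finsetSum_coeff]
    apply Finset.sum_pos'
    · intro H _
      rw [coeff_X_pow]
      split_ifs <;> norm_num
    · refine ⟨G, Finset.mem_filter.2 ⟨Finset.mem_univ _, hG, hGα⟩, ?_⟩
      rw [coeff_X_pow, if_pos hGe.symm]
      exact one_pos
  exact h1.ne'

end Pool.Agent.U285.EG
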