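import Mathlib.RingTheory.PowerSeries.Derivative
import Mathlib.RingTheory.PowerSeries.Inverse
import Mathlib.RingTheory.PowerSeries.Basic
import Mathlib.Algebra.Polynomial.Derivative
import Mathlib.Data.Real.Basic
import Mathlib.Tactic

namespace Pool.Agent.U285.EG

open PowerSeries

/-- `X ^ (s+1) ∣ h` implies `X ^ s ∣ h'`. -/
theorem X_pow_dvd_deriv {s : ℕ} {h : ℝ⟦X⟧} (hs : (PowerSeries.X : ℝ⟦X⟧) ^ (s + 1) ∣ h) :
    (PowerSeries.X : ℝ⟦X⟧) ^ s ∣ d⁄dX ℝ h := by
  rw [PowerSeries.X_pow_dvd_iff] at hs ⊢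
  intro m hm
  rw [PowerSeries.coeff_derivative, hs (m + 1) (by omega), zero_mul]

theorem X_pow_dvd_iterate {n : ℕ} : ∀ {s : ℕ} {h : ℝ⟦X⟧},
    (PowerSeries.X : ℝ⟦X⟧) ^ (s + n) ∣ h →
    (PowerSeries.X : ℝ⟦X⟧) ^ s ∣ (fun f : ℝ⟦X⟧ => d⁄dX ℝ f)^[n] h := by
  induction n with
  | zero => intro s h hs; simpa using hs
  | succ n ih =>
    intro s h hs
    rw [Function.iterate_succ_apply]
    apply ih
    apply X_pow_dvd_deriv
    rwa [← add_assoc] at hs

theorem eq_zero_of_deriv {h : ℝ⟦X⟧} (h0 : (PowerSeries.X : ℝ⟦X⟧) ^ 1 ∣ h)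
    (h1 : d⁄dX ℝ h = 0) : h = 0 := by
  ext n
  rcases n with _ | n
  · rw [PowerSeries.X_pow_dvd_iff] at h0
    simpa using h0 0 (by omega)
  · have h2 := congrArg (fun f => PowerSeries.coeff n f) h1
    simp only [PowerSeries.coeff_derivative, map_zero] at h2
    rcases mul_eq_zero.1 h2 with h3 | h3
    · simpa using h3
    · exfalso
      have : (0 : ℝ) < (n : ℝ) + 1 := by positivity
      linarith

theorem eq_zero_of_iterate : ∀ {n : ℕ} {s : ℕ} {h : ℝ⟦X⟧}, n ≤ s →
    (PowerSeries.X : ℝ⟦X⟧) ^ s ∣ h → (fun f : ℝ⟦X⟧ => d⁄dX ℝ f)^[n] h = 0 → h = 0 := by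
  intro n
  induction n with
  | zero => intro s h _ _ h0; simpa using h0
  | succ n ih =>
    intro s h hns hs h0
    rw [Function.iterate_succ_apply] at h0
    obtain ⟨s', rfl⟩ : ∃ s', s = s' + 1 := ⟨s - 1, by omega⟩
    have h1 := ih (s := s') (by omega) (X_pow_dvd_deriv hs) h0
    exact eq_zero_of_deriv (dvd_trans (pow_dvd_pow _ (by omega)) hs) h1

/-- One derivative step. -/
theorem step {Q P : Polynomial ℝ} {δ : ℕ} (hQ : Q.natDegree ≤ δ + 1) (hP : P.natDegree ≤ δ)
    {S : ℝ⟦X⟧} (hS : (Q : ℝ⟦X⟧) * d⁄dX ℝ S = (P : ℝ⟦X⟧) * S) {D : ℕ} {p : Polynomial ℝ}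
    (hp : p.natDegree ≤ D) (n : ℕ) :
    ∃ q : Polynomial ℝ, q.natDegree ≤ D + n * δ ∧
      (Q : ℝ⟦X⟧) ^ n * (fun f : ℝ⟦X⟧ => d⁄dX ℝ f)^[n] ((p : ℝ⟦X⟧) * S) = (q : ℝ⟦X⟧) * S := by
  induction n with
  | zero => exact ⟨p, by simpa using hp, by simp⟩
  | succ n ih =>
    obtain ⟨q, hq, hqe⟩ := ih
    refine ⟨Q * Polynomial.derivative q + q * P -
      Polynomial.C (n : ℝ) * Polynomial.derivative Q * q, ?_, ?_⟩
    · have hdQ : (Polynomial.derivative Q).natDegree ≤ δ :=
        le_trans (Polynomial.natDegree_derivative_le Q) (by omega)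
      have hdq : (Polynomial.derivative q).natDegree ≤ D + n * δ - 1 :=
        le_trans (Polynomial.natDegree_derivative_le q) (by omega)
      have e1 : (Q * Polynomial.derivative q).natDegree ≤ D + (n + 1) * δ := by
        by_cases h0 : q.natDegree = 0
        · have : Polynomial.derivative q = 0 := by
            rw [Polynomial.eq_C_of_natDegree_eq_zero h0, Polynomial.derivative_C]
          rw [this, mul_zero, Polynomial.natDegree_zero]
          exact Nat.zero_le _
        · refine le_trans Polynomial.natDegree_mul_le ?_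
          have h3 : (n + 1) * δ = n * δ + δ := by ring
          rw [h3]
          have h4 := Polynomial.natDegree_derivative_le q
          omega
      have e2 : (q * P).natDegree ≤ D + (n + 1) * δ := by
        refine le_trans Polynomial.natDegree_mul_le ?_
        have h3 : (n + 1) * δ = n * δ + δ := by ring
        omega
      have e3 : (Polynomial.C (n : ℝ) * Polynomial.derivative Q * q).natDegree
          ≤ D + (n + 1) * δ := by
        refine le_trans Polynomial.natDegree_mul_le ?_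
        have h3 : (n + 1) * δ = n * δ + δ := by ring
        have h4 := Polynomial.natDegree_C_mul_le (n : ℝ) (Polynomial.derivative Q)
        omega
      exact le_trans (Polynomial.natDegree_sub_le _ _)
        (max_le (le_trans (Polynomial.natDegree_add_le _ _) (max_le e1 e2)) e3)
    · rw [Function.iterate_succ_apply']
      set F := (fun f : ℝ⟦X⟧ => d⁄dX ℝ f)^[n] ((p : ℝ⟦X⟧) * S) with hF
      have h1 := congrArg (fun f => d⁄dX ℝ f) hqe
      simp only [Derivation.leibniz, Derivation.leibniz_pow, smul_eq_mul] at h1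
      rw [PowerSeries.derivative_coe, PowerSeries.derivative_coe] at h1
      have hc : ((Polynomial.C (n : ℝ) : Polynomial ℝ) : ℝ⟦X⟧) = (n : ℝ⟦X⟧) := by
        rw [Polynomial.coe_C, map_natCast]
      rw [Polynomial.coe_sub, Polynomial.coe_add, Polynomial.coe_mul, Polynomial.coe_mul,
        Polynomial.coe_mul, Polynomial.coe_mul, hc]
      rcases n with _ | n
      · simp only [pow_zero, one_mul, zero_smul, mul_zero, add_zero] at h1 hqe ⊢
        simp only [zero_add, pow_one, Nat.cast_zero]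
        rw [h1]
        linear_combination (q : ℝ⟦X⟧) * hS
      · simp only [nsmul_eq_mul, Nat.add_sub_cancel] at h1
        linear_combination (Q : ℝ⟦X⟧) * h1 - ((n + 1 : ℕ) : ℝ⟦X⟧) *
          (Polynomial.derivative Q : ℝ⟦X⟧) * hqe + (q : ℝ⟦X⟧) * hS

end Pool.Agent.U285.EG
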