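import Pool.Agent.U285.EG.A1

namespace Pool.Agent.U285.EG

open PowerSeries

theorem iter_sum {ι : Type*} (s : Finset ι) (g : ι → ℝ⟦X⟧) (n : ℕ) :
    (fun f : ℝ⟦X⟧ => d⁄dX ℝ f)^[n] (∑ t ∈ s, g t) =
      ∑ t ∈ s, (fun f : ℝ⟦X⟧ => d⁄dX ℝ f)^[n] (g t) := by
  induction n with
  | zero => simp
  | succ n ih =>
    simp only [Function.iterate_succ_apply']
    rw [ih, map_sum]

theorem iter_add (g h : ℝ⟦X⟧) (n : ℕ) :
    (fun f : ℝ⟦X⟧ => d⁄dX ℝ f)^[n] (g + h) =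
      (fun f : ℝ⟦X⟧ => d⁄dX ℝ f)^[n] g + (fun f : ℝ⟦X⟧ => d⁄dX ℝ f)^[n] h := by
  induction n with
  | zero => simp
  | succ n ih =>
    simp only [Function.iterate_succ_apply']
    rw [ih, map_add]

theorem iter_coe (p : Polynomial ℝ) (n : ℕ) :
    (fun f : ℝ⟦X⟧ => d⁄dX ℝ f)^[n] (p : ℝ⟦X⟧) =
      ((Polynomial.derivative^[n] p : Polynomial ℝ) : ℝ⟦X⟧) := by
  induction n with
  | zero => simp
  | succ n ih =>
    simp only [Function.iterate_succ_apply']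
    rw [ih, PowerSeries.derivative_coe]

theorem combo (B : ℕ) : ∀ (δ D s : ℕ) (Q : Polynomial ℝ), Q.natDegree ≤ δ + 1 → Q ≠ 0 →
    ∀ (S : Fin B → ℝ⟦X⟧) (P : Fin B → Polynomial ℝ), (∀ t, (P t).natDegree ≤ δ) →
    (∀ t, (Q : ℝ⟦X⟧) * d⁄dX ℝ (S t) = (P t : ℝ⟦X⟧) * S t) →
    (∀ t, PowerSeries.constantCoeff (S t) ≠ 0) →
    ∀ (p : Fin B → Polynomial ℝ), (∀ t, (p t).natDegree ≤ D) →
    (D + 1) * ∑ i ∈ Finset.range B, (δ + 1) ^ i ≤ s →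
    (PowerSeries.X : ℝ⟦X⟧) ^ s ∣ ∑ t, (p t : ℝ⟦X⟧) * S t →
    ∑ t, (p t : ℝ⟦X⟧) * S t = 0 := by
  induction B with
  | zero =>
    intro δ D s Q _ _ S P _ _ _ p _ _ _
    simp
  | succ B ih =>
    intro δ D s Q hQ hQ0 S P hP hS hu p hp hs hdvd
    set L := S (Fin.last B) with hL
    have hLL : L * L⁻¹ = 1 := PowerSeries.mul_inv_cancel _ (hu _)
    have hLd : (Q : ℝ⟦X⟧) * d⁄dX ℝ L = (P (Fin.last B) : ℝ⟦X⟧) * L := hS _
    have hdi : d⁄dX ℝ L⁻¹ = -L⁻¹ ^ 2 * d⁄dX ℝ L := PowerSeries.derivative_inv' L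
    set F := ∑ t, (p t : ℝ⟦X⟧) * S t with hF
    have hF1 : F * L⁻¹ = (∑ t : Fin B, (p t.castSucc : ℝ⟦X⟧) * (S t.castSucc * L⁻¹)) +
        (p (Fin.last B) : ℝ⟦X⟧) := by
      rw [hF, Fin.sum_univ_castSucc, add_mul, Finset.sum_mul, ← hL, mul_assoc _ L, hLL, mul_one]
      congr 1
      exact Finset.sum_congr rfl (fun t _ => mul_assoc _ _ _)
    have hSt : ∀ t : Fin B, (Q : ℝ⟦X⟧) * d⁄dX ℝ (S t.castSucc * L⁻¹) =
        ((P t.castSucc - P (Fin.last B) : Polynomial ℝ) : ℝ⟦X⟧) * (S t.castSucc * L⁻¹) := by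
      intro t
      have h1 := hS t.castSucc
      rw [Derivation.leibniz, hdi, Polynomial.coe_sub]
      simp only [smul_eq_mul]
      linear_combination L⁻¹ * h1 - (S t.castSucc * L⁻¹ ^ 2) * hLd -
        (P (Fin.last B) : ℝ⟦X⟧) * S t.castSucc * L⁻¹ * hLL
    have hPt : ∀ t : Fin B, (P t.castSucc - P (Fin.last B)).natDegree ≤ δ := fun t =>
      le_trans (Polynomial.natDegree_sub_le _ _) (max_le (hP _) (hP _))
    have hut : ∀ t : Fin B, PowerSeries.constantCoeff (S t.castSucc * L⁻¹) ≠ 0 := by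
      intro t
      rw [map_mul, PowerSeries.constantCoeff_inv]
      exact mul_ne_zero (hu _) (inv_ne_zero (hu _))
    have hstep : ∀ t : Fin B, ∃ q : Polynomial ℝ, q.natDegree ≤ D + (D + 1) * δ ∧
      (Q : ℝ⟦X⟧) ^ (D + 1) * (fun f : ℝ⟦X⟧ => d⁄dX ℝ f)^[D + 1]
        ((p t.castSucc : ℝ⟦X⟧) * (S t.castSucc * L⁻¹)) = (q : ℝ⟦X⟧) * (S t.castSucc * L⁻¹) :=
      fun t => step hQ (hPt t) (hSt t) (hp _) (D + 1)
    choose q hq hqe using hstep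
    have hlast : (fun f : ℝ⟦X⟧ => d⁄dX ℝ f)^[D + 1] (p (Fin.last B) : ℝ⟦X⟧) = 0 := by
      rw [iter_coe, Polynomial.iterate_derivative_eq_zero (Nat.lt_succ_of_le (hp _))]
      simp
    have hmain : (Q : ℝ⟦X⟧) ^ (D + 1) * (fun f : ℝ⟦X⟧ => d⁄dX ℝ f)^[D + 1] (F * L⁻¹) =
        ∑ t : Fin B, (q t : ℝ⟦X⟧) * (S t.castSucc * L⁻¹) := by
      rw [hF1, iter_add, hlast, add_zero, iter_sum, Finset.mul_sum]
      exact Finset.sum_congr rfl (fun t _ => hqe t)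
    have hsum : (D + 1) * ∑ i ∈ Finset.range (B + 1), (δ + 1) ^ i =
        (D + (D + 1) * δ + 1) * ∑ i ∈ Finset.range B, (δ + 1) ^ i + (D + 1) := by
      rw [Finset.sum_range_succ', pow_zero, mul_add, mul_one]
      congr 1
      rw [Finset.mul_sum, Finset.mul_sum]
      refine Finset.sum_congr rfl (fun i _ => ?_)
      ring
    have hd : (PowerSeries.X : ℝ⟦X⟧) ^ s ∣ F * L⁻¹ := Dvd.dvd.mul_right hdvd _
    obtain ⟨s', rfl⟩ : ∃ s', s = s' + (D + 1) := ⟨s - (D + 1), by omega⟩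
    have hz : (Q : ℝ⟦X⟧) ^ (D + 1) * (fun f : ℝ⟦X⟧ => d⁄dX ℝ f)^[D + 1] (F * L⁻¹) = 0 := by
      rw [hmain]
      apply ih δ (D + (D + 1) * δ) s' Q hQ hQ0 _ _ hPt hSt hut q hq (by omega)
      rw [← hmain]
      exact Dvd.dvd.mul_left (X_pow_dvd_iterate hd) _
    have hQ1 : (Q : ℝ⟦X⟧) ^ (D + 1) ≠ 0 := by
      apply pow_ne_zero
      intro h
      exact hQ0 (Polynomial.coe_eq_zero_iff.1 h)
    have hz2 := (mul_eq_zero.1 hz).resolve_left hQ1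
    have hz3 : F * L⁻¹ = 0 := eq_zero_of_iterate (by omega) hd hz2
    calc F = F * L⁻¹ * L := by rw [mul_assoc, mul_comm L⁻¹ L, hLL, mul_one]
      _ = 0 := by rw [hz3, zero_mul]

end Pool.Agent.U285.EG
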