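import Pool.Agent.U285.EG.A2

namespace Pool.Agent.U285.EG

open Polynomial

theorem d_add (k A : ℕ) : (1 - X ^ (2 * k) : ℝ[X]) * derivative ((1 + X ^ k) ^ A) =
    (C ((A : ℝ) * k) * X ^ (k - 1) * (1 - X ^ k)) * (1 + X ^ k) ^ A := by
  rcases A with _ | A
  · simp
  · rw [derivative_pow, derivative_add, derivative_one, derivative_X_pow, zero_add,
      Nat.add_sub_cancel, C_mul, pow_succ]
    ring

theorem d_sub (k A : ℕ) : (1 - X ^ (2 * k) : ℝ[X]) * derivative ((1 - X ^ k) ^ A) =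
    (-(C ((A : ℝ) * k) * X ^ (k - 1) * (1 + X ^ k))) * (1 - X ^ k) ^ A := by
  rcases A with _ | A
  · simp
  · rw [derivative_pow, derivative_sub, derivative_one, derivative_X_pow, zero_sub,
      Nat.add_sub_cancel, C_mul, pow_succ]
    ring

theorem deg_one_add (k : ℕ) : (1 + X ^ k : ℝ[X]).natDegree ≤ k :=
  le_trans (natDegree_add_le _ _) (max_le (by simp) (by simp))

theorem deg_one_sub (k : ℕ) : (1 - X ^ k : ℝ[X]).natDegree ≤ k :=
  le_trans (natDegree_sub_le _ _) (max_le (by simp) (by simp))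

theorem deg_Q (K : Finset ℕ) :
    (∏ k ∈ K, (1 - X ^ (2 * k) : ℝ[X])).natDegree ≤ 2 * ∑ k ∈ K, k := by
  refine le_trans (natDegree_prod_le _ _) ?_
  rw [Finset.mul_sum]
  exact Finset.sum_le_sum (fun k _ => deg_one_sub _)

theorem exists_P (K : Finset ℕ) (hK : ∀ k ∈ K, 1 ≤ k) (A B : ℕ → ℕ) :
    ∃ P : ℝ[X], (P = 0 ∨ P.natDegree + 1 ≤ 2 * ∑ k ∈ K, k) ∧
      (∏ k ∈ K, (1 - X ^ (2 * k) : ℝ[X])) *
        derivative (∏ k ∈ K, (1 + X ^ k) ^ A k * (1 - X ^ k) ^ B k) =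
      P * ∏ k ∈ K, (1 + X ^ k) ^ A k * (1 - X ^ k) ^ B k := by
  classical
  induction K using Finset.induction_on with
  | empty => exact ⟨0, Or.inl rfl, by simp⟩
  | insert k K hk ih =>
    obtain ⟨P0, hP0, hP0e⟩ := ih (fun j hj => hK j (Finset.mem_insert_of_mem hj))
    have hk1 : 1 ≤ k := hK k (Finset.mem_insert_self _ _)
    rw [Finset.prod_insert hk, Finset.prod_insert hk, Finset.sum_insert hk]
    set Q0 := ∏ k ∈ K, (1 - X ^ (2 * k) : ℝ[X]) with hQ0
    set T0 := ∏ k ∈ K, ((1 + X ^ k) ^ A k * (1 - X ^ k) ^ B k : ℝ[X]) with hT0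
    have hQd : Q0.natDegree ≤ 2 * ∑ k ∈ K, k := deg_Q K
    refine ⟨Q0 * (C ((A k : ℝ) * k) * X ^ (k - 1) * (1 - X ^ k)) -
      Q0 * (C ((B k : ℝ) * k) * X ^ (k - 1) * (1 + X ^ k)) + (1 - X ^ (2 * k)) * P0,
      Or.inr ?_, ?_⟩
    · have e0 : ∀ c : ℝ, (C c * X ^ (k - 1) : ℝ[X]).natDegree ≤ k - 1 := fun c =>
        le_trans (natDegree_C_mul_le _ _) (by simp)
      have e1 : (Q0 * (C ((A k : ℝ) * k) * X ^ (k - 1) * (1 - X ^ k))).natDegree ≤
          2 * (k + ∑ k ∈ K, k) - 1 := by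
        refine le_trans natDegree_mul_le ?_
        have h1 : (C ((A k : ℝ) * k) * X ^ (k - 1) * (1 - X ^ k) : ℝ[X]).natDegree ≤
            (k - 1) + k := le_trans natDegree_mul_le (add_le_add (e0 _) (deg_one_sub k))
        omega
      have e2 : (Q0 * (C ((B k : ℝ) * k) * X ^ (k - 1) * (1 + X ^ k))).natDegree ≤
          2 * (k + ∑ k ∈ K, k) - 1 := by
        refine le_trans natDegree_mul_le ?_
        have h1 : (C ((B k : ℝ) * k) * X ^ (k - 1) * (1 + X ^ k) : ℝ[X]).natDegree ≤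
            (k - 1) + k := le_trans natDegree_mul_le (add_le_add (e0 _) (deg_one_add k))
        omega
      have e3 : ((1 - X ^ (2 * k)) * P0 : ℝ[X]).natDegree ≤ 2 * (k + ∑ k ∈ K, k) - 1 := by
        rcases hP0 with h0 | h0
        · rw [h0, mul_zero, natDegree_zero]; exact Nat.zero_le _
        · refine le_trans natDegree_mul_le ?_
          have h1 := deg_one_sub (2 * k)
          omega
      have e4 := le_trans (natDegree_add_le (Q0 * (C ((A k : ℝ) * k) * X ^ (k - 1) * (1 - X ^ k)) -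
        Q0 * (C ((B k : ℝ) * k) * X ^ (k - 1) * (1 + X ^ k))) ((1 - X ^ (2 * k)) * P0))
        (max_le (le_trans (natDegree_sub_le _ _) (max_le e1 e2)) e3)
      omega
    · rw [derivative_mul, derivative_mul]
      have h1 := d_add k (A k)
      have h2 := d_sub k (B k)
      linear_combination (Q0 * (1 - X ^ k) ^ B k * T0) * h1 + (Q0 * (1 + X ^ k) ^ A k * T0) * h2 +
        ((1 - X ^ (2 * k)) * ((1 + X ^ k) ^ A k * (1 - X ^ k) ^ B k)) * hP0e

theorem coeff_zero_T (K : Finset ℕ) (hK : ∀ k ∈ K, 1 ≤ k) (A B : ℕ → ℕ) :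
    PowerSeries.constantCoeff
      ((∏ k ∈ K, (1 + X ^ k) ^ A k * (1 - X ^ k) ^ B k : ℝ[X]) : PowerSeries ℝ) = 1 := by
  rw [Polynomial.constantCoeff_coe, Polynomial.coeff_zero_eq_eval_zero, eval_prod]
  apply Finset.prod_eq_one
  intro k hk
  have h1 : k ≠ 0 := by have := hK k hk; omega
  simp [h1]

end Pool.Agent.U285.EG
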