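import Pool.Agent.U285.EG.A3
import Mathlib.LinearAlgebra.Vandermonde
import Mathlib.LinearAlgebra.Matrix.Determinant.Basic
import Mathlib.LinearAlgebra.FiniteDimensional.Lemmas

namespace Pool.Agent.U285.EG

open PowerSeries Module

/-- An echelon family in a finite dimensional space of power series. -/
theorem echelon : ∀ (B : ℕ) (V : Submodule ℝ ℝ⟦X⟧) [FiniteDimensional ℝ V], finrank ℝ V = B →
    ∀ n : ℕ, (∀ f ∈ V, ∀ m < n, PowerSeries.coeff m f = 0) →
    ∃ (g : Fin B → ℝ⟦X⟧) (e : Fin B → ℕ), Function.Injective e ∧ (∀ j, g j ∈ V) ∧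
      (∀ j, n ≤ e j) ∧ (∀ j, PowerSeries.coeff (e j) (g j) ≠ 0) ∧
      ∀ j, ∀ m < e j, PowerSeries.coeff m (g j) = 0 := by
  classical
  intro B
  induction B with
  | zero =>
    intro V _ _ n _
    exact ⟨Fin.elim0, Fin.elim0, fun i => i.elim0, fun i => i.elim0, fun i => i.elim0,
      fun i => i.elim0, fun i => i.elim0⟩
  | succ B ih =>
    intro V _ hV n hn
    have hne : ∃ m, ∃ f ∈ V, PowerSeries.coeff m f ≠ 0 := by
      by_contra hcon
      push Not at hcon
      have : V = ⊥ := by
        rw [Submodule.eq_bot_iff]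
        intro f hf
        ext m
        simpa using hcon m f hf
      rw [this, finrank_bot] at hV
      omega
    obtain ⟨m0, hm0, hmin⟩ : ∃ m, (∃ f ∈ V, PowerSeries.coeff m f ≠ 0) ∧
        ∀ m' < m, ¬ ∃ f ∈ V, PowerSeries.coeff m' f ≠ 0 :=
      ⟨Nat.find hne, Nat.find_spec hne, fun m' hm' => Nat.find_min hne hm'⟩
    obtain ⟨g0, hg0V, hg0⟩ := hm0
    have hlow : ∀ m' < m0, ∀ f ∈ V, PowerSeries.coeff m' f = 0 := by
      intro m' hm' f hf
      by_contra hcon
      exact hmin m' hm' ⟨f, hf, hcon⟩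
    have hnm : n ≤ m0 := by
      by_contra hcon
      exact hg0 (hn g0 hg0V m0 (by omega))
    set φ : V →ₗ[ℝ] ℝ := (PowerSeries.coeff m0).domRestrict V with hφ
    have hsurj : LinearMap.range φ = ⊤ := by
      rw [LinearMap.range_eq_top]
      intro y
      refine ⟨(y / PowerSeries.coeff m0 g0) • ⟨g0, hg0V⟩, ?_⟩
      rw [map_smul, hφ, LinearMap.domRestrict_apply, smul_eq_mul, div_mul_cancel₀ _ hg0]
    have hker : finrank ℝ (LinearMap.ker φ) = B := by
      have h1 := LinearMap.finrank_range_add_finrank_ker φ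
      rw [hsurj, finrank_top, finrank_self, hV] at h1
      omega
    set V' : Submodule ℝ ℝ⟦X⟧ := (LinearMap.ker φ).map V.subtype with hV'
    have hfr : finrank ℝ V' = B := by
      rw [hV', Submodule.finrank_map_subtype_eq, hker]
    have hmem : ∀ f ∈ V', f ∈ V ∧ PowerSeries.coeff m0 f = 0 := by
      intro f hf
      rw [hV', Submodule.mem_map] at hf
      obtain ⟨y, hy, rfl⟩ := hf
      refine ⟨y.2, ?_⟩
      rw [LinearMap.mem_ker, hφ, LinearMap.domRestrict_apply] at hy
      exact hy
    obtain ⟨g, e, he, hgV, hne', hge, hgl⟩ := ih V' hfr (m0 + 1) (by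
      intro f hf m hm
      rcases Nat.lt_succ_iff_lt_or_eq.1 hm with h | h
      · exact hlow m h f (hmem f hf).1
      · rw [h]; exact (hmem f hf).2)
    refine ⟨Fin.cons g0 g, Fin.cons m0 e, ?_, ?_, ?_, ?_, ?_⟩
    · rw [Fin.cons_injective_iff]
      refine ⟨?_, he⟩
      rintro ⟨j, hj⟩
      have := hne' j
      omega
    · intro j
      refine Fin.cases ?_ ?_ j
      · simpa using hg0V
      · intro i; simpa using (hmem _ (hgV i)).1
    · intro j
      refine Fin.cases ?_ ?_ j
      · simpa using hnm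
      · intro i
        have := hne' i
        simp only [Fin.cons_succ]
        omega
    · intro j
      refine Fin.cases ?_ ?_ j
      · simpa using hg0
      · intro i; simpa using hge i
    · intro j
      refine Fin.cases ?_ ?_ j
      · intro m hm
        simp only [Fin.cons_zero] at hm ⊢
        exact hlow m hm g0 hg0V
      · intro i m hm
        simp only [Fin.cons_succ] at hm ⊢
        exact hgl i m hm

/-- The Euler operator `θ f = x f'`. -/
noncomputable def θ (f : ℝ⟦X⟧) : ℝ⟦X⟧ := PowerSeries.X * d⁄dX ℝ f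

theorem coeff_θ (f : ℝ⟦X⟧) (n : ℕ) : PowerSeries.coeff n (θ f) = n * PowerSeries.coeff n f := by
  rcases n with _ | n
  · simp [θ]
  · rw [θ, mul_comm, PowerSeries.coeff_succ_mul_X, PowerSeries.coeff_derivative]
    push_cast
    ring

theorem coeff_θ_iter (f : ℝ⟦X⟧) (i n : ℕ) :
    PowerSeries.coeff n (θ^[i] f) = (n : ℝ) ^ i * PowerSeries.coeff n f := by
  induction i with
  | zero => simp
  | succ i ih =>
    rw [Function.iterate_succ_apply', coeff_θ, ih, pow_succ]
    ring

theorem θ_iter_sum {ι : Type*} (s : Finset ι) (c : ι → ℝ) (f : ι → ℝ⟦X⟧) (i : ℕ) :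
    θ^[i] (∑ t ∈ s, PowerSeries.C (c t) * f t) = ∑ t ∈ s, PowerSeries.C (c t) * θ^[i] (f t) := by
  ext n
  rw [coeff_θ_iter, map_sum, map_sum, Finset.mul_sum]
  refine Finset.sum_congr rfl (fun t _ => ?_)
  rw [PowerSeries.coeff_C_mul, PowerSeries.coeff_C_mul, coeff_θ_iter]
  ring

/-- Non-vanishing of the Wronskian (with respect to `θ`) of an echelon family. -/
theorem det_echelon {B : ℕ} (g : Fin B → ℝ⟦X⟧) (e : Fin B → ℕ) (he : Function.Injective e)
    (h1 : ∀ j, PowerSeries.coeff (e j) (g j) ≠ 0)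
    (h2 : ∀ j, ∀ m < e j, PowerSeries.coeff m (g j) = 0) :
    (Matrix.of fun (i j : Fin B) => θ^[i.1] (g j)).det ≠ 0 := by
  have hd : ∀ i j : Fin B, (PowerSeries.X : ℝ⟦X⟧) ^ e j ∣ θ^[i.1] (g j) := by
    intro i j
    rw [PowerSeries.X_pow_dvd_iff]
    intro m hm
    rw [coeff_θ_iter, h2 j m hm, mul_zero]
  choose v hv using hd
  have hc : ∀ i j : Fin B, PowerSeries.constantCoeff (v i j) =
      (e j : ℝ) ^ i.1 * PowerSeries.coeff (e j) (g j) := by
    intro i j
    have h3 := congrArg (PowerSeries.coeff (e j)) (hv i j)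
    rw [coeff_θ_iter] at h3
    rw [h3]
    have h4 := PowerSeries.coeff_X_pow_mul (v i j) (e j) 0
    rw [zero_add] at h4
    rw [h4, PowerSeries.coeff_zero_eq_constantCoeff_apply]
  have hM : (Matrix.of fun (i j : Fin B) => θ^[i.1] (g j)) =
      Matrix.of fun (i j : Fin B) => ((PowerSeries.X : ℝ⟦X⟧) ^ e j) * (Matrix.of v) i j := by
    refine congrArg Matrix.of (funext fun i => funext fun j => ?_)
    exact hv i j
  rw [hM, Matrix.det_mul_row]
  apply mul_ne_zero
  · rw [Finset.prod_ne_zero_iff]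
    intro j _
    exact pow_ne_zero _ PowerSeries.X_ne_zero
  · intro h0
    have h5 := congrArg PowerSeries.constantCoeff h0
    rw [RingHom.map_det, map_zero] at h5
    have h6 : (PowerSeries.constantCoeff (R := ℝ)).mapMatrix (Matrix.of v) =
        Matrix.of fun i j : Fin B => (PowerSeries.coeff (e j) (g j)) *
          (Matrix.vandermonde (fun j => (e j : ℝ))).transpose i j := by
      ext i j
      rw [RingHom.mapMatrix_apply, Matrix.map_apply, Matrix.of_apply, hc, Matrix.of_apply,
        Matrix.transpose_apply, Matrix.vandermonde_apply]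
      ring
    rw [h6, Matrix.det_mul_row, Matrix.det_transpose] at h5
    rcases mul_eq_zero.1 h5 with h7 | h7
    · rw [Finset.prod_eq_zero_iff] at h7
      obtain ⟨j, _, hj⟩ := h7
      exact h1 j hj
    · have h8 : Function.Injective (fun j => (e j : ℝ)) := by
        intro i j hij
        have h9 : (e i : ℝ) = (e j : ℝ) := hij
        exact he (by exact_mod_cast h9)
      exact (Matrix.det_vandermonde_ne_zero_iff.2 h8) h7

/-- Non-vanishing of the Wronskian (with respect to `θ`) of linearly independent series. -/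
theorem det_ne_zero {B : ℕ} (f : Fin B → ℝ⟦X⟧) (hf : LinearIndependent ℝ f) :
    (Matrix.of fun (i j : Fin B) => θ^[i.1] (f j)).det ≠ 0 := by
  have hfd : FiniteDimensional ℝ (Submodule.span ℝ (Set.range f)) :=
    FiniteDimensional.span_of_finite ℝ (Set.finite_range f)
  have hr : finrank ℝ (Submodule.span ℝ (Set.range f)) = B := by
    rw [finrank_span_eq_card hf, Fintype.card_fin]
  obtain ⟨g, e, he, hgV, _, h1, h2⟩ := echelon B _ hr 0 (fun _ _ m hm => absurd hm (by omega))
  have hg : ∀ j, ∃ c : Fin B → ℝ, ∑ t, c t • f t = g j := fun j =>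
    (Submodule.mem_span_range_iff_exists_fun ℝ).1 (hgV j)
  choose C hC using hg
  have hdet := det_echelon g e he h1 h2
  intro h0
  apply hdet
  have hmul : (Matrix.of fun (i j : Fin B) => θ^[i.1] (g j)) =
      (Matrix.of fun (i j : Fin B) => θ^[i.1] (f j)) *
        (Matrix.of fun (t j : Fin B) => PowerSeries.C (C j t)) := by
    refine Matrix.ext fun i j => ?_
    rw [Matrix.mul_apply, Matrix.of_apply, ← hC j]
    have h3 : ∑ t, C j t • f t = ∑ t, PowerSeries.C (C j t) * f t := by
      refine Finset.sum_congr rfl (fun t _ => ?_)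
      rw [PowerSeries.smul_eq_C_mul (f t) (C j t)]
    rw [h3, θ_iter_sum]
    refine Finset.sum_congr rfl (fun t _ => ?_)
    rw [Matrix.of_apply, Matrix.of_apply, mul_comm]
  rw [hmul, Matrix.det_mul, h0, zero_mul]

end Pool.Agent.U285.EG
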