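import Pool.Agent.U285.EG.A5

namespace Pool.Agent.U285.EG

open PowerSeries

theorem θ_coe (R : Polynomial ℝ) :
    θ (R : ℝ⟦X⟧) = ((Polynomial.X * Polynomial.derivative R : Polynomial ℝ) : ℝ⟦X⟧) := by
  rw [θ, PowerSeries.derivative_coe, Polynomial.coe_mul, Polynomial.coe_X]

theorem natDegree_X_mul_deriv (R : Polynomial ℝ) :
    (Polynomial.X * Polynomial.derivative R).natDegree ≤ R.natDegree := by
  by_cases h0 : R.natDegree = 0
  · have : Polynomial.derivative R = 0 := by
      rw [Polynomial.eq_C_of_natDegree_eq_zero h0, Polynomial.derivative_C]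
    rw [this, mul_zero, Polynomial.natDegree_zero]
    exact Nat.zero_le _
  · refine le_trans Polynomial.natDegree_mul_le ?_
    have h4 := Polynomial.natDegree_derivative_le R
    have h5 : (Polynomial.X : Polynomial ℝ).natDegree ≤ 1 := Polynomial.natDegree_X_le
    omega

/-- One `θ` step. -/
theorem stepθ {Q P : Polynomial ℝ} {m : ℕ} (hQ : Q.natDegree ≤ m) (hP : P.natDegree ≤ m)
    {S : ℝ⟦X⟧} (hS : (Q : ℝ⟦X⟧) * θ S = (P : ℝ⟦X⟧) * S) (n : ℕ) :
    ∃ q : Polynomial ℝ, q.natDegree ≤ n * m ∧
      (Q : ℝ⟦X⟧) ^ n * θ^[n] S = (q : ℝ⟦X⟧) * S := by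
  induction n with
  | zero => exact ⟨1, by simp, by simp⟩
  | succ n ih =>
    obtain ⟨q, hq, hqe⟩ := ih
    have h3 : (n + 1) * m = n * m + m := by ring
    refine ⟨Q * (Polynomial.X * Polynomial.derivative q) + q * P -
      Polynomial.C (n : ℝ) * (Polynomial.X * Polynomial.derivative Q) * q, ?_, ?_⟩
    · have hdQ := natDegree_X_mul_deriv Q
      have hdq := natDegree_X_mul_deriv q
      have e1 : (Q * (Polynomial.X * Polynomial.derivative q)).natDegree ≤ (n + 1) * m := by
        refine le_trans Polynomial.natDegree_mul_le ?_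
        omega
      have e2 : (q * P).natDegree ≤ (n + 1) * m := by
        refine le_trans Polynomial.natDegree_mul_le ?_
        omega
      have e3 : (Polynomial.C (n : ℝ) * (Polynomial.X * Polynomial.derivative Q) * q).natDegree
          ≤ (n + 1) * m := by
        refine le_trans Polynomial.natDegree_mul_le ?_
        have h4 := Polynomial.natDegree_C_mul_le (n : ℝ) (Polynomial.X * Polynomial.derivative Q)
        omega
      exact le_trans (Polynomial.natDegree_sub_le _ _)
        (max_le (le_trans (Polynomial.natDegree_add_le _ _) (max_le e1 e2)) e3)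
    · rw [Function.iterate_succ_apply']
      set F := θ^[n] S with hF
      have h1 := congrArg (fun f => θ f) hqe
      simp only [θ, Derivation.leibniz, Derivation.leibniz_pow, smul_eq_mul] at h1
      rw [PowerSeries.derivative_coe, PowerSeries.derivative_coe] at h1
      have hc : ((Polynomial.C (n : ℝ) : Polynomial ℝ) : ℝ⟦X⟧) = (n : ℝ⟦X⟧) := by
        rw [Polynomial.coe_C, map_natCast]
      rw [Polynomial.coe_sub, Polynomial.coe_add, Polynomial.coe_mul, Polynomial.coe_mul,
        Polynomial.coe_mul, Polynomial.coe_mul, Polynomial.coe_mul, Polynomial.coe_mul, hc,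
        Polynomial.coe_X]
      simp only [θ] at hS ⊢
      rcases n with _ | n
      · simp only [pow_zero, one_mul, zero_smul, mul_zero, add_zero] at h1 hqe ⊢
        simp only [zero_add, pow_one, Nat.cast_zero]
        linear_combination (Q : ℝ⟦X⟧) * h1 + (q : ℝ⟦X⟧) * hS
      · simp only [nsmul_eq_mul, Nat.add_sub_cancel] at h1
        linear_combination (Q : ℝ⟦X⟧) * h1 - ((n + 1 : ℕ) : ℝ⟦X⟧) *
          (PowerSeries.X * (Polynomial.derivative Q : ℝ⟦X⟧)) * hqe + (q : ℝ⟦X⟧) * hS

theorem natDegree_det {B m : ℕ} (R : Fin B → Fin B → Polynomial ℝ)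
    (hR : ∀ i j, (R i j).natDegree ≤ i.1 * m) :
    (Matrix.of R).det.natDegree ≤ m * ∑ i ∈ Finset.range B, i := by
  rw [Matrix.det_apply']
  refine Polynomial.natDegree_sum_le_of_forall_le _ _ (fun σ _ => ?_)
  refine le_trans Polynomial.natDegree_mul_le ?_
  rw [Polynomial.natDegree_intCast, zero_add]
  refine le_trans (Polynomial.natDegree_prod_le _ _) ?_
  have h1 : ∑ i : Fin B, ((Matrix.of R) (σ i) i).natDegree ≤ ∑ i : Fin B, (σ i).1 * m :=
    Finset.sum_le_sum (fun i _ => hR _ _)
  refine le_trans h1 (le_of_eq ?_)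
  rw [Equiv.sum_comp σ (fun i : Fin B => i.1 * m), ← Finset.sum_mul, mul_comm,
    Finset.sum_range]

theorem combo2 (B : ℕ) : ∀ (m p : ℕ) (Q : Polynomial ℝ), Q.natDegree ≤ m → Q ≠ 0 →
    ∀ (S : Fin B → ℝ⟦X⟧) (P : Fin B → Polynomial ℝ), (∀ t, (P t).natDegree ≤ m) →
    (∀ t, (Q : ℝ⟦X⟧) * θ (S t) = (P t : ℝ⟦X⟧) * S t) →
    (∀ t, PowerSeries.constantCoeff (S t) ≠ 0) →
    ∀ (c : Fin B → ℝ), m * ∑ i ∈ Finset.range B, i < p →
    (PowerSeries.X : ℝ⟦X⟧) ^ p ∣ ∑ t, PowerSeries.C (c t) * S t →
    ∑ t, PowerSeries.C (c t) * S t = 0 := by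
  classical
  induction B with
  | zero =>
    intro m p Q _ _ S P _ _ _ c _ _
    simp
  | succ B ih =>
    intro m p Q hQ hQ0 S P hP hS hu c hp hdvd
    by_cases hli : LinearIndependent ℝ S
    · by_cases hc0 : ∀ t, c t = 0
      · apply Finset.sum_eq_zero
        intro t _
        rw [hc0 t, map_zero, zero_mul]
      · exfalso
        push Not at hc0
        obtain ⟨s, hs⟩ := hc0
        have hdet := det_ne_zero S hli
        set A : Matrix (Fin (B + 1)) (Fin (B + 1)) ℝ⟦X⟧ :=
          Matrix.of fun (i j : Fin (B + 1)) => θ^[i.1] (S j) with hA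
        -- divisibility
        have hd1 : (PowerSeries.X : ℝ⟦X⟧) ^ p ∣ PowerSeries.C (c s) * A.det := by
          have h1 := Matrix.det_updateCol_sum A s (fun t => PowerSeries.C (c t))
          have h2 : ∀ k : Fin (B + 1), (PowerSeries.X : ℝ⟦X⟧) ^ p ∣
              ∑ t, (PowerSeries.C (c t)) • A k t := by
            intro k
            have h3 : ∑ t, (PowerSeries.C (c t)) • A k t =
                θ^[k.1] (∑ t, PowerSeries.C (c t) * S t) := by
              rw [θ_iter_sum]
              rfl
            rw [h3, PowerSeries.X_pow_dvd_iff]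
            intro n hn
            rw [coeff_θ_iter, (PowerSeries.X_pow_dvd_iff.1 hdvd) n hn, mul_zero]
          choose w hw using h2
          have h4 : (fun k => ∑ t, (PowerSeries.C (c t)) • A k t) =
              (PowerSeries.X : ℝ⟦X⟧) ^ p • w := by
            funext k
            rw [hw k]
            rfl
          rw [h4, Matrix.det_updateCol_smul] at h1
          exact ⟨_, h1.symm⟩
        have hd2 : (PowerSeries.X : ℝ⟦X⟧) ^ p ∣ A.det := by
          have h1 : A.det = PowerSeries.C (c s)⁻¹ * (PowerSeries.C (c s) * A.det) := by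
            rw [← mul_assoc, ← map_mul, inv_mul_cancel₀ hs, map_one, one_mul]
          rw [h1]
          exact Dvd.dvd.mul_left hd1 _
        -- polynomials
        have hR : ∀ i j : Fin (B + 1), ∃ q : Polynomial ℝ, q.natDegree ≤ i.1 * m ∧
          (Q : ℝ⟦X⟧) ^ i.1 * θ^[i.1] (S j) = (q : ℝ⟦X⟧) * S j :=
          fun i j => stepθ hQ (hP j) (hS j) i.1
        choose R hRd hRe using hR
        have e1 : (Matrix.of fun (i j : Fin (B + 1)) => (Q : ℝ⟦X⟧) ^ i.1 * A i j) =
            Matrix.of fun (i j : Fin (B + 1)) => S j *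
              (Matrix.of fun (i j : Fin (B + 1)) => (R i j : ℝ⟦X⟧)) i j := by
          refine congrArg Matrix.of (funext fun i => funext fun j => ?_)
          rw [Matrix.of_apply, mul_comm (S j)]
          exact hRe i j
        have e2 := congrArg Matrix.det e1
        rw [Matrix.det_mul_column, Matrix.det_mul_row] at e2
        have e3 : (Matrix.of fun (i j : Fin (B + 1)) => (R i j : ℝ⟦X⟧)).det =
            (((Matrix.of R).det : Polynomial ℝ) : ℝ⟦X⟧) := by
          have : ∀ f : Polynomial ℝ, (f : ℝ⟦X⟧) = Polynomial.coeToPowerSeries.ringHom f :=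
            fun f => rfl
          rw [this, RingHom.map_det]
          rfl
        rw [e3] at e2
        have hdd := natDegree_det R hRd
        -- the product of the `S j` is a unit
        have hunit : IsUnit (∏ j, S j) := by
          rw [PowerSeries.isUnit_iff_constantCoeff, map_prod]
          exact IsUnit.mk0 _ (Finset.prod_ne_zero_iff.2 (fun j _ => hu j))
        have hd3 : (PowerSeries.X : ℝ⟦X⟧) ^ p ∣ (∏ j, S j) *
            (((Matrix.of R).det : Polynomial ℝ) : ℝ⟦X⟧) := by
          rw [← e2]
          exact Dvd.dvd.mul_left hd2 _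
        have hd4 := (hunit.dvd_mul_left).1 hd3
        have hz : (Matrix.of R).det = 0 := by
          ext n
          rw [Polynomial.coeff_zero]
          by_cases hn : n < p
          · have h5 := (PowerSeries.X_pow_dvd_iff.1 hd4) n hn
            rwa [Polynomial.coeff_coe] at h5
          · apply Polynomial.coeff_eq_zero_of_natDegree_lt
            omega
        rw [hz, Polynomial.coe_zero, mul_zero] at e2
        rcases mul_eq_zero.1 e2 with h6 | h6
        · rw [Finset.prod_eq_zero_iff] at h6
          obtain ⟨i, _, hi⟩ := h6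
          have h7 : (Q : ℝ⟦X⟧) = 0 := by
            by_contra hcon
            exact pow_ne_zero _ hcon hi
          exact hQ0 (Polynomial.coe_eq_zero_iff.1 h7)
        · exact hdet h6
    · rw [Fintype.not_linearIndependent_iff] at hli
      obtain ⟨g, hg, s, hs⟩ := hli
      have hg2 : ∑ t, PowerSeries.C (g t) * S t = 0 := by
        rw [← hg]
        refine Finset.sum_congr rfl (fun t _ => ?_)
        rw [PowerSeries.smul_eq_C_mul (S t) (g t)]
      have hcomb : ∑ t, PowerSeries.C (c t) * S t =
          ∑ t : Fin B, PowerSeries.C (c (s.succAbove t) - c s / g s * g (s.succAbove t)) *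
            S (s.succAbove t) := by
        have h1 : ∑ t, PowerSeries.C (c t) * S t =
            ∑ t, PowerSeries.C (c t - c s / g s * g t) * S t := by
          have h2 : ∑ t, PowerSeries.C (c t - c s / g s * g t) * S t =
              ∑ t, PowerSeries.C (c t) * S t -
                PowerSeries.C (c s / g s) * ∑ t, PowerSeries.C (g t) * S t := by
            rw [Finset.mul_sum, ← Finset.sum_sub_distrib]
            refine Finset.sum_congr rfl (fun t _ => ?_)
            rw [map_sub, map_mul]
            ring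
          rw [h2, hg2, mul_zero, sub_zero]
        rw [h1, Fin.sum_univ_succAbove _ s, div_mul_cancel₀ _ hs, sub_self, map_zero, zero_mul,
          zero_add]
      rw [hcomb] at hdvd ⊢
      refine ih m p Q hQ hQ0 _ (fun t => P (s.succAbove t)) (fun t => hP _) (fun t => hS _)
        (fun t => hu _) _ ?_ hdvd
      refine lt_of_le_of_lt ?_ hp
      apply Nat.mul_le_mul_left
      rw [Finset.sum_range_succ]
      omega

end Pool.Agent.U285.EG
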