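import Pool.Agent.U285.EG.A4
import Pool.Agent.U285.EG.A6

namespace Pool.Agent.U285.EG

open Polynomial

/-- A combination of `B` products of polynomials `(1 + X^k)^A (1 - X^k)^B` which is divisible by
a power of `X` of order greater than `B (B - 1) ∑ k` vanishes. -/
theorem combo_poly2 (B p : ℕ) (K : Finset ℕ) (hK : ∀ k ∈ K, 1 ≤ k)
    (hp : B * (B - 1) * ∑ k ∈ K, k < p) (c : Fin B → ℝ)
    (A' B' : Fin B → ℕ → ℕ)
    (h : (X : ℝ[X]) ^ p ∣ ∑ t, C (c t) * ∏ k ∈ K, (1 + X ^ k) ^ A' t k * (1 - X ^ k) ^ B' t k) :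
    ∑ t, C (c t) * ∏ k ∈ K, (1 + X ^ k) ^ A' t k * (1 - X ^ k) ^ B' t k = 0 := by
  classical
  set Q : ℝ[X] := ∏ k ∈ K, (1 - X ^ (2 * k)) with hQ
  have hQd : Q.natDegree ≤ 2 * ∑ k ∈ K, k := deg_Q K
  have hQ0 : Q ≠ 0 := by
    intro h0
    have h1 : Q.eval 0 = 1 := by
      rw [hQ, eval_prod]
      apply Finset.prod_eq_one
      intro k hk
      have h1 : k ≠ 0 := by have := hK k hk; omega
      simp [h1]
    rw [h0, eval_zero] at h1
    exact zero_ne_one h1
  have hP := fun t => exists_P K hK (A' t) (B' t)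
  choose P hPd hPe using hP
  set T : Fin B → ℝ[X] := fun t => ∏ k ∈ K, (1 + X ^ k) ^ A' t k * (1 - X ^ k) ^ B' t k with hT
  have hcoe : ((∑ t, C (c t) * T t : ℝ[X]) : PowerSeries ℝ) =
      ∑ t, PowerSeries.C (c t) * (T t : PowerSeries ℝ) := by
    have : ∀ f : ℝ[X], (f : PowerSeries ℝ) = Polynomial.coeToPowerSeries.ringHom f :=
      fun f => rfl
    rw [this, map_sum]
    refine Finset.sum_congr rfl (fun t _ => ?_)
    rw [← this, Polynomial.coe_mul, Polynomial.coe_C]
  have hz : ((∑ t, C (c t) * T t : ℝ[X]) : PowerSeries ℝ) = 0 := by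
    rw [hcoe]
    apply combo2 B (2 * ∑ k ∈ K, k) p Q hQd hQ0 (fun t => (T t : PowerSeries ℝ))
      (fun t => X * P t)
    · intro t
      rcases hPd t with h0 | h0
      · simp only [h0, mul_zero, natDegree_zero]; exact Nat.zero_le _
      · refine le_trans natDegree_mul_le ?_
        have h5 : (Polynomial.X : Polynomial ℝ).natDegree ≤ 1 := Polynomial.natDegree_X_le
        omega
    · intro t
      rw [θ_coe, ← Polynomial.coe_mul, ← Polynomial.coe_mul]
      refine congrArg _ ?_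
      linear_combination X * hPe t
    · intro t
      rw [hT]
      rw [coeff_zero_T K hK]
      exact one_ne_zero
    · have h1 := Finset.sum_range_id_mul_two B
      calc 2 * (∑ k ∈ K, k) * ∑ i ∈ Finset.range B, i =
          ((∑ i ∈ Finset.range B, i) * 2) * ∑ k ∈ K, k := by ring
        _ = B * (B - 1) * ∑ k ∈ K, k := by rw [h1]
        _ < p := hp
    · rw [← hcoe]
      obtain ⟨g, hg⟩ := h
      refine ⟨(g : PowerSeries ℝ), ?_⟩
      rw [hg, Polynomial.coe_mul, Polynomial.coe_pow, Polynomial.coe_X]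
  exact Polynomial.coe_eq_zero_iff.1 hz

theorem poly_main2 (B p : ℕ) (K : Finset ℕ) (hK : ∀ k ∈ K, 1 ≤ k)
    (hp : B * (B - 1) * ∑ k ∈ K, k < p) (V : ℝ[X]) (hV : X ^ p ∣ V)
    (c : Fin B → ℝ) (a b : Fin B → ℕ → ℤ)
    (h : ∀ x ∈ Set.Ioo (0 : ℝ) 1, V.eval x =
      ∑ t, c t * ∏ k ∈ K, (1 + x ^ k) ^ a t k * (1 - x ^ k) ^ b t k) : V = 0 := by
  classical
  set e : ℕ := ∑ t, ∑ k ∈ K, ((a t k).natAbs + (b t k).natAbs) with he
  have hbound : ∀ t, ∀ k ∈ K, (a t k).natAbs + (b t k).natAbs ≤ e := by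
    intro t k hk
    rw [he]
    refine le_trans ?_ (Finset.single_le_sum (f := fun t => ∑ k ∈ K,
      ((a t k).natAbs + (b t k).natAbs)) (fun _ _ => Nat.zero_le _) (Finset.mem_univ t))
    exact Finset.single_le_sum (f := fun k => (a t k).natAbs + (b t k).natAbs)
      (fun _ _ => Nat.zero_le _) hk
  set M0 : ℝ[X] := ∏ k ∈ K, (1 + X ^ k) ^ e * (1 - X ^ k) ^ e with hM0
  set T : Fin B → ℝ[X] := fun t => ∏ k ∈ K, (1 + X ^ k) ^ ((e : ℤ) + a t k).toNat *
    (1 - X ^ k) ^ ((e : ℤ) + b t k).toNat with hT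
  have hM : M0 ≠ 0 := by
    intro h0
    have h1 : M0.eval 0 = 1 := by
      rw [hM0, eval_prod]
      apply Finset.prod_eq_one
      intro k hk
      have h1 : k ≠ 0 := by have := hK k hk; omega
      simp [h1]
    rw [h0, eval_zero] at h1
    exact zero_ne_one h1
  have hpoly : M0 * V = ∑ t, C (c t) * T t := by
    apply Polynomial.eq_of_infinite_eval_eq
    refine Set.Infinite.mono ?_ (Set.Ioo_infinite (show (0 : ℝ) < 1 by norm_num))
    intro x hx
    have hx' := h x hx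
    rw [Set.mem_ofPred_eq, eval_finsetSum, eval_mul, hx', Finset.mul_sum]
    apply Finset.sum_congr rfl
    intro t _
    rw [eval_mul, eval_C, mul_left_comm]
    congr 1
    rw [hM0, hT, eval_prod, eval_prod, ← Finset.prod_mul_distrib]
    apply Finset.prod_congr rfl
    intro k hk
    have hk1 := hK k hk
    have hxk0 : 0 < x ^ k := pow_pos hx.1 k
    have hxk1 : x ^ k < 1 := pow_lt_one₀ hx.1.le hx.2 (by omega)
    have hb := hbound t k hk
    have e1 := zpow_shift (y := 1 + x ^ k) (by positivity) (n := e) (a := a t k) (by omega)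
    have e2 := zpow_shift (y := 1 - x ^ k) (by linarith) (n := e) (a := b t k) (by omega)
    simp only [eval_mul, eval_pow, eval_add, eval_sub, eval_one, eval_X]
    rw [← e1, ← e2]
    ring
  have hdvd : (X : ℝ[X]) ^ p ∣ ∑ t, C (c t) * T t := by
    rw [← hpoly]
    exact Dvd.dvd.mul_left hV _
  have hz := combo_poly2 B p K hK hp c _ _ hdvd
  have hz2 : M0 * V = 0 := by rw [hpoly]; exact hz
  exact (mul_eq_zero.1 hz2).resolve_left hM

end Pool.Agent.U285.EG
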