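import Pool.Agent.U285.EG.A7

namespace Pool.Agent.U285.EG

open Polynomial

theorem dvd_pow_sub_one {e k : ℕ} (hk : e < k) (s : ℝ) (n : ℕ) :
    (X : ℝ[X]) ^ (e + 1) ∣ (1 + C s * X ^ k) ^ n - 1 := by
  have h1 : (X : ℝ[X]) ^ (e + 1) ∣ (1 + C s * X ^ k) - 1 := by
    rw [add_sub_cancel_left]
    exact Dvd.dvd.mul_left (pow_dvd_pow _ (by omega)) _
  refine dvd_trans h1 ?_
  have h2 := sub_dvd_pow_sub_pow (1 + C s * X ^ k : ℝ[X]) 1 n
  rwa [one_pow] at h2

theorem dvd_factor_sub_one {e k : ℕ} (hk : e < k) (a b : ℕ) :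
    (X : ℝ[X]) ^ (e + 1) ∣ (1 + X ^ k) ^ a * (1 - X ^ k) ^ b - 1 := by
  have h1 := dvd_pow_sub_one hk 1 a
  have h2 := dvd_pow_sub_one hk (-1) b
  simp only [map_neg, map_one, one_mul, neg_mul, ← sub_eq_add_neg] at h1 h2
  have h3 : ((1 + X ^ k) ^ a * (1 - X ^ k) ^ b - 1 : ℝ[X]) =
      ((1 + X ^ k) ^ a - 1) * (1 - X ^ k) ^ b + ((1 - X ^ k) ^ b - 1) := by ring
  rw [h3]
  exact dvd_add (Dvd.dvd.mul_right h1 _) h2

/-- The factors with `k > e` do not matter modulo `X ^ (e + 1)`. -/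
theorem prod_filter_congr (K : Finset ℕ) (e : ℕ) (A B : ℕ → ℕ) :
    (X : ℝ[X]) ^ (e + 1) ∣ (∏ k ∈ K, (1 + X ^ k) ^ A k * (1 - X ^ k) ^ B k) -
      ∏ k ∈ K.filter (· ≤ e), (1 + X ^ k) ^ A k * (1 - X ^ k) ^ B k := by
  classical
  induction K using Finset.induction_on with
  | empty => simp
  | insert k K hk ih =>
    rw [Finset.prod_insert hk, Finset.filter_insert]
    set F : ℝ[X] := (1 + X ^ k) ^ A k * (1 - X ^ k) ^ B k with hF
    set P : ℝ[X] := ∏ k ∈ K, (1 + X ^ k) ^ A k * (1 - X ^ k) ^ B k with hP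
    by_cases hke : k ≤ e
    · rw [if_pos hke, Finset.prod_insert (by
        intro h; exact hk (Finset.mem_filter.1 h).1), ← mul_sub]
      exact Dvd.dvd.mul_left ih _
    · rw [if_neg hke]
      have h3 : F * P - ∏ k ∈ K.filter (· ≤ e), (1 + X ^ k) ^ A k * (1 - X ^ k) ^ B k =
          (F - 1) * P + (P - ∏ k ∈ K.filter (· ≤ e), (1 + X ^ k) ^ A k * (1 - X ^ k) ^ B k) := by
        ring
      rw [h3]
      exact dvd_add (Dvd.dvd.mul_right (dvd_factor_sub_one (by omega) _ _) _) ih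

theorem poly_main3 (B e : ℕ) (K : Finset ℕ) (hK : ∀ k ∈ K, 1 ≤ k)
    (hp : B * (B - 1) * ∑ k ∈ K.filter (· ≤ e), k < e) (V : ℝ[X]) (hV : X ^ e ∣ V)
    (hVe : V.coeff e ≠ 0) (c : Fin B → ℝ) (a b : Fin B → ℕ → ℤ) :
    ¬ ∀ x ∈ Set.Ioo (0 : ℝ) 1, V.eval x =
      ∑ t, c t * ∏ k ∈ K, (1 + x ^ k) ^ a t k * (1 - x ^ k) ^ b t k := by
  classical
  intro h
  set n : ℕ := ∑ t, ∑ k ∈ K, ((a t k).natAbs + (b t k).natAbs) with hn
  have hbound : ∀ t, ∀ k ∈ K, (a t k).natAbs + (b t k).natAbs ≤ n := by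
    intro t k hk
    rw [hn]
    refine le_trans ?_ (Finset.single_le_sum (f := fun t => ∑ k ∈ K,
      ((a t k).natAbs + (b t k).natAbs)) (fun _ _ => Nat.zero_le _) (Finset.mem_univ t))
    exact Finset.single_le_sum (f := fun k => (a t k).natAbs + (b t k).natAbs)
      (fun _ _ => Nat.zero_le _) hk
  set M0 : ℝ[X] := ∏ k ∈ K, (1 + X ^ k) ^ n * (1 - X ^ k) ^ n with hM0
  set T : Fin B → ℝ[X] := fun t => ∏ k ∈ K, (1 + X ^ k) ^ ((n : ℤ) + a t k).toNat *
    (1 - X ^ k) ^ ((n : ℤ) + b t k).toNat with hT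
  set T1 : Fin B → ℝ[X] := fun t => ∏ k ∈ K.filter (· ≤ e),
    (1 + X ^ k) ^ ((n : ℤ) + a t k).toNat * (1 - X ^ k) ^ ((n : ℤ) + b t k).toNat with hT1
  have hM : M0.coeff 0 = 1 := by
    rw [Polynomial.coeff_zero_eq_eval_zero, hM0, eval_prod]
    apply Finset.prod_eq_one
    intro k hk
    have h1 : k ≠ 0 := by have := hK k hk; omega
    simp [h1]
  have hpoly : M0 * V = ∑ t, C (c t) * T t := by
    apply Polynomial.eq_of_infinite_eval_eq
    refine Set.Infinite.mono ?_ (Set.Ioo_infinite (show (0 : ℝ) < 1 by norm_num))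
    intro x hx
    have hx' := h x hx
    rw [Set.mem_ofPred_eq, eval_finsetSum, eval_mul, hx', Finset.mul_sum]
    apply Finset.sum_congr rfl
    intro t _
    rw [eval_mul, eval_C, mul_left_comm]
    congr 1
    rw [hM0, hT, eval_prod, eval_prod, ← Finset.prod_mul_distrib]
    apply Finset.prod_congr rfl
    intro k hk
    have hk1 := hK k hk
    have hxk0 : 0 < x ^ k := pow_pos hx.1 k
    have hxk1 : x ^ k < 1 := pow_lt_one₀ hx.1.le hx.2 (by omega)
    have hb := hbound t k hk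
    have e1 := zpow_shift (y := 1 + x ^ k) (by positivity) (n := n) (a := a t k) (by omega)
    have e2 := zpow_shift (y := 1 - x ^ k) (by linarith) (n := n) (a := b t k) (by omega)
    simp only [eval_mul, eval_pow, eval_add, eval_sub, eval_one, eval_X]
    rw [← e1, ← e2]
    ring
  have hcong : (X : ℝ[X]) ^ (e + 1) ∣ ∑ t, C (c t) * T t - ∑ t, C (c t) * T1 t := by
    rw [← Finset.sum_sub_distrib]
    apply Finset.dvd_sum
    intro t _
    rw [← mul_sub]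
    exact Dvd.dvd.mul_left (prod_filter_congr K e _ _) _
  have hd1 : (X : ℝ[X]) ^ e ∣ ∑ t, C (c t) * T1 t := by
    have h1 : ∑ t, C (c t) * T1 t = M0 * V - (∑ t, C (c t) * T t - ∑ t, C (c t) * T1 t) := by
      rw [hpoly]; ring
    rw [h1]
    exact dvd_sub (Dvd.dvd.mul_left hV _) (dvd_trans (pow_dvd_pow _ (by omega)) hcong)
  have hz := combo_poly2 B e (K.filter (· ≤ e)) (fun k hk => hK k (Finset.mem_filter.1 hk).1)
    hp c _ _ hd1
  have hz' : ∑ t, C (c t) * T1 t = 0 := hz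
  rw [hz', sub_zero, ← hpoly] at hcong
  have h5 := (Polynomial.X_pow_dvd_iff.1 hcong) e (by omega)
  obtain ⟨V', rfl⟩ := hV
  have h6 : M0 * (X ^ e * V') = X ^ e * (M0 * V') := by ring
  rw [h6] at h5
  have h7 := Polynomial.coeff_X_pow_mul (M0 * V') e 0
  rw [zero_add] at h7
  rw [h7, Polynomial.mul_coeff_zero, hM, one_mul] at h5
  have h8 := Polynomial.coeff_X_pow_mul V' e 0
  rw [zero_add] at h8
  exact hVe (by rw [h8]; exact h5)

end Pool.Agent.U285.EG
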