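import Pool.Agent.U285.EG.A6
import Mathlib.LinearAlgebra.Dimension.StrongRankCondition

namespace Pool.Agent.U285.EG

open PowerSeries Module

/-- The Wronskian of `S` and one more series. -/
noncomputable def Dd {B : ℕ} (S : Fin B → ℝ⟦X⟧) (h : ℝ⟦X⟧) : ℝ⟦X⟧ :=
  (Matrix.of fun (i j : Fin (B + 1)) =>
    θ^[i.1] ((Fin.snoc S h : Fin (B + 1) → ℝ⟦X⟧) j)).det

theorem Dd_expand {B : ℕ} (S : Fin B → ℝ⟦X⟧) : ∃ cof : Fin (B + 1) → ℝ⟦X⟧, ∀ h : ℝ⟦X⟧,
    Dd S h = ∑ i : Fin (B + 1), cof i * θ^[i.1] h := by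
  refine ⟨fun i => (-1) ^ (i + Fin.last B : ℕ) * (Matrix.of fun (a b : Fin B) =>
    θ^[(i.succAbove a).1] (S b)).det, fun h => ?_⟩
  rw [Dd, Matrix.det_succ_column _ (Fin.last B)]
  refine Finset.sum_congr rfl (fun i _ => ?_)
  have h1 : (Matrix.of fun (i j : Fin (B + 1)) =>
      θ^[i.1] ((Fin.snoc S h : Fin (B + 1) → ℝ⟦X⟧) j)).submatrix i.succAbove
      (Fin.last B).succAbove = Matrix.of fun (a b : Fin B) => θ^[(i.succAbove a).1] (S b) := by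
    refine Matrix.ext fun a b => ?_
    rw [Matrix.submatrix_apply, Matrix.of_apply, Matrix.of_apply, Fin.succAbove_last,
      Fin.snoc_castSucc]
  rw [h1, Matrix.of_apply, Fin.snoc_last]
  ring

theorem Dd_sum {B : ℕ} (S : Fin B → ℝ⟦X⟧) {ι : Type*} (I : Finset ι) (w : ι → ℝ)
    (u : ι → ℝ⟦X⟧) : Dd S (∑ i ∈ I, PowerSeries.C (w i) * u i) =
      ∑ i ∈ I, PowerSeries.C (w i) * Dd S (u i) := by
  obtain ⟨cof, hcof⟩ := Dd_expand S
  rw [hcof]
  simp only [θ_iter_sum, hcof]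
  simp only [Finset.mul_sum]
  rw [Finset.sum_comm]
  refine Finset.sum_congr rfl (fun i _ => Finset.sum_congr rfl (fun j _ => ?_))
  ring

theorem Dd_self {B : ℕ} (S : Fin B → ℝ⟦X⟧) (t : Fin B) : Dd S (S t) = 0 := by
  rw [Dd]
  refine Matrix.det_zero_of_column_eq (i := t.castSucc) (j := Fin.last B) ?_ ?_
  · exact (Fin.castSucc_lt_last t).ne
  · intro k
    rw [Matrix.of_apply, Matrix.of_apply, Fin.snoc_castSucc, Fin.snoc_last]

theorem Dd_of_mem {B : ℕ} (S : Fin B → ℝ⟦X⟧) {h : ℝ⟦X⟧}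
    (hh : h ∈ Submodule.span ℝ (Set.range S)) : Dd S h = 0 := by
  obtain ⟨c, hc⟩ := (Submodule.mem_span_range_iff_exists_fun ℝ).1 hh
  have h3 : ∑ t, c t • S t = ∑ t, PowerSeries.C (c t) * S t := by
    refine Finset.sum_congr rfl (fun t _ => ?_)
    rw [PowerSeries.smul_eq_C_mul (S t) (c t)]
  rw [← hc, h3, Dd_sum]
  apply Finset.sum_eq_zero
  intro t _
  rw [Dd_self, mul_zero]

theorem mem_of_Dd {B : ℕ} {S : Fin B → ℝ⟦X⟧} (hS : LinearIndependent ℝ S) {h : ℝ⟦X⟧}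
    (hh : Dd S h = 0) : h ∈ Submodule.span ℝ (Set.range S) := by
  by_contra hcon
  have h1 : LinearIndependent ℝ (Fin.snoc S h : Fin (B + 1) → ℝ⟦X⟧) :=
    linearIndependent_finSnoc.2 ⟨hS, hcon⟩
  exact det_ne_zero _ h1 hh

theorem Dd_type {B m : ℕ} {Q : Polynomial ℝ} (hQ : Q.natDegree ≤ m)
    {S : Fin B → ℝ⟦X⟧} {P : Fin B → Polynomial ℝ} (hP : ∀ t, (P t).natDegree ≤ m)
    (hS : ∀ t, (Q : ℝ⟦X⟧) * θ (S t) = (P t : ℝ⟦X⟧) * S t) {h : ℝ⟦X⟧} {R : Polynomial ℝ}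
    (hR : R.natDegree ≤ m) (hh : (Q : ℝ⟦X⟧) * θ h = (R : ℝ⟦X⟧) * h) :
    ∃ Δ : Polynomial ℝ, Δ.natDegree ≤ m * ∑ i ∈ Finset.range (B + 1), i ∧
      (∏ i : Fin (B + 1), (Q : ℝ⟦X⟧) ^ i.1) * Dd S h = (∏ t, S t) * h * (Δ : ℝ⟦X⟧) := by
  have hR' : ∀ i j : Fin (B + 1), ∃ q : Polynomial ℝ, q.natDegree ≤ i.1 * m ∧
      (Q : ℝ⟦X⟧) ^ i.1 * θ^[i.1] ((Fin.snoc S h : Fin (B + 1) → ℝ⟦X⟧) j) =
        (q : ℝ⟦X⟧) * (Fin.snoc S h : Fin (B + 1) → ℝ⟦X⟧) j := by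
    intro i j
    refine Fin.lastCases ?_ ?_ j
    · rw [Fin.snoc_last]
      exact stepθ hQ hR hh i.1
    · intro t
      rw [Fin.snoc_castSucc]
      exact stepθ hQ (hP t) (hS t) i.1
  choose q hqd hqe using hR'
  refine ⟨(Matrix.of q).det, natDegree_det q hqd, ?_⟩
  have e1 : (Matrix.of fun (i j : Fin (B + 1)) => (Q : ℝ⟦X⟧) ^ i.1 *
      (Matrix.of fun (i j : Fin (B + 1)) =>
        θ^[i.1] ((Fin.snoc S h : Fin (B + 1) → ℝ⟦X⟧) j)) i j) =
      Matrix.of fun (i j : Fin (B + 1)) => (Fin.snoc S h : Fin (B + 1) → ℝ⟦X⟧) j *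
        (Matrix.of fun (i j : Fin (B + 1)) => (q i j : ℝ⟦X⟧)) i j := by
    refine congrArg Matrix.of (funext fun i => funext fun j => ?_)
    rw [Matrix.of_apply, Matrix.of_apply, mul_comm ((Fin.snoc S h : Fin (B + 1) → ℝ⟦X⟧) j)]
    exact hqe i j
  have e2 := congrArg Matrix.det e1
  rw [Matrix.det_mul_column, Matrix.det_mul_row] at e2
  have e3 : (Matrix.of fun (i j : Fin (B + 1)) => (q i j : ℝ⟦X⟧)).det =
      (((Matrix.of q).det : Polynomial ℝ) : ℝ⟦X⟧) := by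
    have : ∀ f : Polynomial ℝ, (f : ℝ⟦X⟧) = Polynomial.coeToPowerSeries.ringHom f :=
      fun f => rfl
    rw [this, RingHom.map_det]
    rfl
  rw [e3] at e2
  rw [Dd, e2, Fin.prod_univ_castSucc]
  simp only [Fin.snoc_castSucc, Fin.snoc_last]

/-- Series `N0 X^(τ j) y_j` with increasing `τ` and units `y_j` are linearly independent. -/
theorem li_of_orders {n : ℕ} {τ : Fin n → ℕ} (hτ : StrictMono τ) {N0 : ℝ⟦X⟧} (hN0 : N0 ≠ 0)
    {y : Fin n → ℝ⟦X⟧} (hy : ∀ j, PowerSeries.constantCoeff (y j) ≠ 0) :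
    LinearIndependent ℝ (fun j => N0 * ((PowerSeries.X : ℝ⟦X⟧) ^ τ j * y j)) := by
  rw [Fintype.linearIndependent_iff]
  intro g hg
  have h1 : ∑ j, g j • ((PowerSeries.X : ℝ⟦X⟧) ^ τ j * y j) = 0 := by
    have h2 : N0 * ∑ j, g j • ((PowerSeries.X : ℝ⟦X⟧) ^ τ j * y j) = 0 := by
      rw [← hg, Finset.mul_sum]
      exact Finset.sum_congr rfl (fun j _ => by rw [mul_smul_comm])
    exact (mul_eq_zero.1 h2).resolve_left hN0
  have key : ∀ k : ℕ, ∀ j : Fin n, j.1 = k → g j = 0 := by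
    intro k
    induction k using Nat.strong_induction_on with
    | _ k ih =>
      intro j hj
      have h3 := congrArg (PowerSeries.coeff (τ j)) h1
      rw [map_sum, map_zero, Finset.sum_eq_single j] at h3
      · rw [PowerSeries.coeff_smul] at h3
        have h4 := PowerSeries.coeff_X_pow_mul (y j) (τ j) 0
        rw [zero_add] at h4
        rw [h4, PowerSeries.coeff_zero_eq_constantCoeff_apply] at h3
        exact (mul_eq_zero.1 h3).resolve_right (hy j)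
      · intro i _ hij
        rcases lt_or_gt_of_ne hij with h | h
        · rw [ih i.1 (by have := Fin.lt_def.1 h; omega) i rfl, zero_smul, map_zero]
        · rw [PowerSeries.coeff_smul, PowerSeries.coeff_X_pow_mul', if_neg, smul_zero]
          have := hτ h
          omega
      · intro h; exact absurd (Finset.mem_univ j) h
  exact fun j => key j.1 j rfl

end Pool.Agent.U285.EG
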