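import Pool.Agent.U285.EG.B1

namespace Pool.Agent.U285.EG

open PowerSeries Module

theorem gap0 {B m M : ℕ} (hM : m * ∑ i ∈ Finset.range (B + 1), i ≤ M)
    {Q : Polynomial ℝ} (hQ : Q.natDegree ≤ m) (hQ0 : Q ≠ 0)
    {S : Fin B → ℝ⟦X⟧} {P : Fin B → Polynomial ℝ} (hP : ∀ t, (P t).natDegree ≤ m)
    (hS : ∀ t, (Q : ℝ⟦X⟧) * θ (S t) = (P t : ℝ⟦X⟧) * S t) (hS0 : ∀ t, S t ≠ 0)
    (hli : LinearIndependent ℝ S)
    {u : ℕ → ℝ⟦X⟧} {R : ℕ → Polynomial ℝ} (hR : ∀ s, (R s).natDegree ≤ m)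
    (hu : ∀ s, (Q : ℝ⟦X⟧) * θ (u s) = (R s : ℝ⟦X⟧) * u s)
    {N0 : ℝ⟦X⟧} (hN0 : N0 ≠ 0) {y : ℕ → ℝ⟦X⟧} (hy : ∀ s, PowerSeries.constantCoeff (y s) ≠ 0)
    (huy : ∀ s, u s = N0 * ((PowerSeries.X : ℝ⟦X⟧) ^ s * y s))
    {ι : Type*} (I : Finset ι) {w : ι → ℝ} (hw : ∀ i ∈ I, 0 < w i) {σ : ι → ℕ}
    {τ : Fin (B + 1) → ℕ} (hτ : StrictMono τ) (hτI : ∀ j, ∃ i ∈ I, σ i = τ j)
    (H1 : ∀ i ∈ I, ∀ j, σ i < τ j → ∃ j', σ i = τ j')
    (H2 : ∀ i ∈ I, ∀ j, τ j < σ i → τ j + M < σ i)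
    (hG : ∑ i ∈ I, PowerSeries.C (w i) * u (σ i) ∈ Submodule.span ℝ (Set.range S)) : False := by
  classical
  have hQc : (Q : ℝ⟦X⟧) ≠ 0 := fun h => hQ0 (Polynomial.coe_eq_zero_iff.1 h)
  have hT := fun s => Dd_type hQ hP hS (hR s) (hu s)
  choose Δ hΔd hΔe using hT
  have hΔM : ∀ s, (Δ s).natDegree ≤ M := fun s => le_trans (hΔd s) hM
  have hprodQ : (∏ i : Fin (B + 1), (Q : ℝ⟦X⟧) ^ i.1) ≠ 0 :=
    Finset.prod_ne_zero_iff.2 (fun i _ => pow_ne_zero _ hQc)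
  have hprodS : (∏ t, S t) ≠ 0 := Finset.prod_ne_zero_iff.2 (fun t _ => hS0 t)
  -- the equation
  have hE : ∑ i ∈ I, PowerSeries.C (w i) *
      ((PowerSeries.X : ℝ⟦X⟧) ^ σ i * y (σ i) * (Δ (σ i) : ℝ⟦X⟧)) = 0 := by
    have h1 := Dd_of_mem S hG
    rw [Dd_sum] at h1
    have h2 : ((∏ t, S t) * N0) * ∑ i ∈ I, PowerSeries.C (w i) *
        ((PowerSeries.X : ℝ⟦X⟧) ^ σ i * y (σ i) * (Δ (σ i) : ℝ⟦X⟧)) = 0 := by
      have h3 : ((∏ t, S t) * N0) * ∑ i ∈ I, PowerSeries.C (w i) *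
          ((PowerSeries.X : ℝ⟦X⟧) ^ σ i * y (σ i) * (Δ (σ i) : ℝ⟦X⟧)) =
          (∏ i : Fin (B + 1), (Q : ℝ⟦X⟧) ^ i.1) *
            ∑ i ∈ I, PowerSeries.C (w i) * Dd S (u (σ i)) := by
        rw [Finset.mul_sum, Finset.mul_sum]
        refine Finset.sum_congr rfl (fun i _ => ?_)
        have h4 := hΔe (σ i)
        rw [huy (σ i)] at h4 ⊢
        linear_combination -PowerSeries.C (w i) * h4
      rw [h3, h1, mul_zero]
    exact (mul_eq_zero.1 h2).resolve_left (mul_ne_zero hprodS hN0)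
  -- some `Δ (τ j)` is not zero
  have hex : ∃ j, Δ (τ j) ≠ 0 := by
    by_contra hcon
    push Not at hcon
    have hmem : ∀ j, u (τ j) ∈ Submodule.span ℝ (Set.range S) := by
      intro j
      apply mem_of_Dd hli
      have h1 := hΔe (τ j)
      rw [hcon j, Polynomial.coe_zero, mul_zero] at h1
      exact (mul_eq_zero.1 h1).resolve_left hprodQ
    have hli2 : LinearIndependent ℝ (fun j => u (τ j)) := by
      have h1 := li_of_orders hτ hN0 (fun j => hy (τ j))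
      have h2 : (fun j => u (τ j)) =
          fun j => N0 * ((PowerSeries.X : ℝ⟦X⟧) ^ τ j * y (τ j)) := funext fun j => huy _
      rw [h2]; exact h1
    have hfd : FiniteDimensional ℝ (Submodule.span ℝ (Set.range S)) :=
      FiniteDimensional.span_of_finite ℝ (Set.finite_range S)
    have hli3 : LinearIndependent ℝ
        (fun j => (⟨u (τ j), hmem j⟩ : Submodule.span ℝ (Set.range S))) := by
      apply LinearIndependent.of_comp (Submodule.span ℝ (Set.range S)).subtype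
      exact hli2
    have h5 := hli3.fintype_card_le_finrank
    have h6 := finrank_range_le_card (R := ℝ) S
    rw [Fintype.card_fin] at h5 h6
    have h7 : finrank ℝ (Submodule.span ℝ (Set.range S)) ≤ B := h6
    omega
  obtain ⟨j0, hj0, hmin⟩ : ∃ j0, Δ (τ j0) ≠ 0 ∧ ∀ j < j0, Δ (τ j) = 0 := by
    obtain ⟨j0, h1, h2⟩ := WellFounded.has_min (wellFounded_lt (α := Fin (B + 1)))
      {j | Δ (τ j) ≠ 0} hex
    refine ⟨j0, h1, fun j hj => ?_⟩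
    by_contra hcon
    exact h2 j hcon hj
  -- isolate the order `τ j0`
  have hsplit := Finset.sum_filter_add_sum_filter_not I (fun i => σ i = τ j0)
    (fun i => PowerSeries.C (w i) *
      ((PowerSeries.X : ℝ⟦X⟧) ^ σ i * y (σ i) * (Δ (σ i) : ℝ⟦X⟧)))
  rw [hE] at hsplit
  have hfirst : ∑ i ∈ I.filter (fun i => σ i = τ j0), PowerSeries.C (w i) *
      ((PowerSeries.X : ℝ⟦X⟧) ^ σ i * y (σ i) * (Δ (σ i) : ℝ⟦X⟧)) =
      (PowerSeries.X : ℝ⟦X⟧) ^ τ j0 * (PowerSeries.C (∑ i ∈ I.filter (fun i => σ i = τ j0), w i) *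
        y (τ j0) * (Δ (τ j0) : ℝ⟦X⟧)) := by
    rw [map_sum, Finset.sum_mul, Finset.sum_mul, Finset.mul_sum]
    refine Finset.sum_congr rfl (fun i hi => ?_)
    rw [(Finset.mem_filter.1 hi).2]
    ring
  have hsecond : (PowerSeries.X : ℝ⟦X⟧) ^ (τ j0 + (M + 1)) ∣
      ∑ i ∈ I.filter (fun i => ¬ σ i = τ j0), PowerSeries.C (w i) *
      ((PowerSeries.X : ℝ⟦X⟧) ^ σ i * y (σ i) * (Δ (σ i) : ℝ⟦X⟧)) := by
    apply Finset.dvd_sum
    intro i hi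
    obtain ⟨hiI, hne⟩ := Finset.mem_filter.1 hi
    rcases lt_or_gt_of_ne hne with h | h
    · obtain ⟨j', hj'⟩ := H1 i hiI j0 h
      have h8 : j' < j0 := by
        rw [hj'] at h
        exact hτ.lt_iff_lt.1 h
      rw [hj', hmin j' h8, Polynomial.coe_zero, mul_zero, mul_zero]
      exact dvd_zero _
    · have h9 := H2 i hiI j0 h
      exact Dvd.dvd.mul_left (Dvd.dvd.mul_right (Dvd.dvd.mul_right
        (pow_dvd_pow _ (by omega)) _) _) _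
  have hW : 0 < ∑ i ∈ I.filter (fun i => σ i = τ j0), w i := by
    obtain ⟨i, hi, hiτ⟩ := hτI j0
    exact Finset.sum_pos (fun i hi => hw i (Finset.mem_filter.1 hi).1)
      ⟨i, Finset.mem_filter.2 ⟨hi, hiτ⟩⟩
  set W0 := ∑ i ∈ I.filter (fun i => σ i = τ j0), w i with hW0
  rw [hfirst] at hsplit
  have hdv : (PowerSeries.X : ℝ⟦X⟧) ^ (τ j0 + (M + 1)) ∣
      (PowerSeries.X : ℝ⟦X⟧) ^ τ j0 * (PowerSeries.C W0 * y (τ j0) * (Δ (τ j0) : ℝ⟦X⟧)) := by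
    rw [eq_neg_of_add_eq_zero_left hsplit]
    exact (dvd_neg).2 hsecond
  rw [pow_add] at hdv
  have hdv2 := (mul_dvd_mul_iff_left (pow_ne_zero (τ j0)
    (PowerSeries.X_ne_zero (R := ℝ)))).1 hdv
  have hunit : IsUnit (PowerSeries.C W0 * y (τ j0)) := by
    rw [PowerSeries.isUnit_iff_constantCoeff, map_mul, PowerSeries.constantCoeff_C]
    exact IsUnit.mk0 _ (mul_ne_zero hW.ne' (hy _))
  have hdv3 := (hunit.dvd_mul_left).1 hdv2
  apply hj0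
  ext n
  rw [Polynomial.coeff_zero]
  by_cases hn : n < M + 1
  · have h5 := (PowerSeries.X_pow_dvd_iff.1 hdv3) n hn
    rwa [Polynomial.coeff_coe] at h5
  · apply Polynomial.coeff_eq_zero_of_natDegree_lt
    have := hΔM (τ j0)
    omega

theorem gap1 {B m M : ℕ} (hM : m * ∑ i ∈ Finset.range (B + 1), i ≤ M)
    {Q : Polynomial ℝ} (hQ : Q.natDegree ≤ m) (hQ0 : Q ≠ 0)
    {S : Fin B → ℝ⟦X⟧} {P : Fin B → Polynomial ℝ} (hP : ∀ t, (P t).natDegree ≤ m)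
    (hS : ∀ t, (Q : ℝ⟦X⟧) * θ (S t) = (P t : ℝ⟦X⟧) * S t) (hS0 : ∀ t, S t ≠ 0)
    {u : ℕ → ℝ⟦X⟧} {R : ℕ → Polynomial ℝ} (hR : ∀ s, (R s).natDegree ≤ m)
    (hu : ∀ s, (Q : ℝ⟦X⟧) * θ (u s) = (R s : ℝ⟦X⟧) * u s)
    {N0 : ℝ⟦X⟧} (hN0 : N0 ≠ 0) {y : ℕ → ℝ⟦X⟧} (hy : ∀ s, PowerSeries.constantCoeff (y s) ≠ 0)
    (huy : ∀ s, u s = N0 * ((PowerSeries.X : ℝ⟦X⟧) ^ s * y s))
    {ι : Type*} (I : Finset ι) {w : ι → ℝ} (hw : ∀ i ∈ I, 0 < w i) {σ : ι → ℕ}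
    {τ : Fin (B + 1) → ℕ} (hτ : StrictMono τ) (hτI : ∀ j, ∃ i ∈ I, σ i = τ j)
    (H1 : ∀ i ∈ I, ∀ j, σ i < τ j → ∃ j', σ i = τ j')
    (H2 : ∀ i ∈ I, ∀ j, τ j < σ i → τ j + M < σ i)
    (hG : ∑ i ∈ I, PowerSeries.C (w i) * u (σ i) ∈ Submodule.span ℝ (Set.range S)) : False := by
  obtain ⟨B', f, hB', hf, hspan, hli⟩ : ∃ (B' : ℕ) (f : Fin B' → ℝ⟦X⟧), B' ≤ B ∧
      (∀ i, f i ∈ Set.range S) ∧
      Submodule.span ℝ (Set.range f) = Submodule.span ℝ (Set.range S) ∧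
      LinearIndependent ℝ f := by
    have hfd0 : FiniteDimensional ℝ (Submodule.span ℝ (Set.range S)) :=
      FiniteDimensional.span_of_finite ℝ (Set.finite_range S)
    obtain ⟨f, hf, hspan, hli⟩ := Submodule.exists_fun_fin_finrank_span_eq ℝ (Set.range S)
    refine ⟨_, f, ?_, hf, hspan, hli⟩
    have h6 := finrank_range_le_card (R := ℝ) S
    rw [Fintype.card_fin] at h6
    exact h6
  choose t ht using hf
  have hle : B' + 1 ≤ B + 1 := by omega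
  refine gap0 (B := B') (M := M) ?_ hQ hQ0 (S := f) (P := fun i => P (t i)) (fun i => hP _)
    (fun i => ?_) (fun i => ?_) hli hR hu hN0 hy huy I hw (σ := σ)
    (τ := fun j => τ (Fin.castLE hle j)) ?_ (fun j => hτI _) ?_ (fun i hi j h => H2 i hi _ h) ?_
  · refine le_trans (Nat.mul_le_mul_left m ?_) hM
    exact Finset.sum_le_sum_of_subset (Finset.range_mono hle)
  · rw [← ht i]; exact hS _
  · rw [← ht i]; exact hS0 _
  · intro a b hab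
    exact hτ (by
      rw [Fin.lt_def] at hab ⊢
      exact hab)
  · intro i hi j h
    obtain ⟨j', hj'⟩ := H1 i hi _ h
    have h8 : j' < Fin.castLE hle j := by
      rw [hj'] at h
      exact hτ.lt_iff_lt.1 h
    have h9 : j'.1 < B' + 1 := lt_trans (Fin.lt_def.1 h8) j.2
    refine ⟨⟨j'.1, h9⟩, ?_⟩
    rw [hj']
    rfl
  · rw [hspan]; exact hG

end Pool.Agent.U285.EG
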