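import Pool.Agent.U285.EG.B2
import Pool.Agent.U285.EG.A4

namespace Pool.Agent.U285.EG

open Polynomial

/-- The products. -/
noncomputable def prodT (K : Finset ℕ) (A B : ℕ → ℕ) : ℝ[X] :=
  ∏ k ∈ K, ((1 + X ^ k) ^ A k * (1 - X ^ k) ^ B k)

theorem prodT_ext {K K' : Finset ℕ} (h : K ⊆ K') (A B : ℕ → ℕ) :
    prodT K A B = prodT K' (fun k => if k ∈ K then A k else 0)
      (fun k => if k ∈ K then B k else 0) := by
  rw [prodT, prodT]
  rw [← Finset.prod_subset h]
  · refine Finset.prod_congr rfl (fun k hk => ?_)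
    rw [if_pos hk, if_pos hk]
  · intro k _ hk
    rw [if_neg hk, if_neg hk, pow_zero, pow_zero, one_mul]

/-- `x = 1 - z`. -/
noncomputable def tl (T : ℝ[X]) : PowerSeries ℝ := ((T.comp (1 - X) : ℝ[X]) : PowerSeries ℝ)

theorem tl_mul (T U : ℝ[X]) : tl (T * U) = tl T * tl U := by
  rw [tl, mul_comp, Polynomial.coe_mul]; rfl

theorem tl_C (c : ℝ) : tl (C c) = PowerSeries.C c := by
  rw [tl, C_comp, Polynomial.coe_C]

theorem tl_sum {ι : Type*} (s : Finset ι) (f : ι → ℝ[X]) :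
    tl (∑ i ∈ s, f i) = ∑ i ∈ s, tl (f i) := by
  classical
  induction s using Finset.induction_on with
  | empty => simp [tl]
  | insert a s ha ih =>
    rw [Finset.sum_insert ha, Finset.sum_insert ha, ← ih, tl, add_comp, Polynomial.coe_add]
    rfl

theorem tl_ne_zero {T : ℝ[X]} (h : T.eval 0 ≠ 0) : tl T ≠ 0 := by
  intro h0
  have h1 : T.comp (1 - X) = 0 := Polynomial.coe_eq_zero_iff.1 h0
  have h2 := congrArg (fun f => Polynomial.eval 1 f) h1
  simp only [eval_comp, eval_sub, eval_one, eval_X, sub_self, eval_zero] at h2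
  exact h h2

theorem natDegree_comp_one_sub (P : ℝ[X]) : (P.comp (1 - X)).natDegree ≤ P.natDegree := by
  refine le_trans natDegree_comp_le ?_
  have h1 : (1 - X : ℝ[X]).natDegree ≤ 1 := by
    have := deg_one_sub 1
    rwa [pow_one] at this
  calc P.natDegree * (1 - X : ℝ[X]).natDegree ≤ P.natDegree * 1 := Nat.mul_le_mul_left _ h1
    _ = P.natDegree := mul_one _

/-- The common denominator. -/
noncomputable def Qt (K : Finset ℕ) : ℝ[X] := (∏ k ∈ K, (1 - X ^ (2 * k) : ℝ[X])).comp (1 - X)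

theorem Qt_deg (K : Finset ℕ) : (Qt K).natDegree ≤ 2 * ∑ k ∈ K, k :=
  le_trans (natDegree_comp_one_sub _) (deg_Q K)

theorem Qt_ne (K : Finset ℕ) (hK : ∀ k ∈ K, 1 ≤ k) : Qt K ≠ 0 := by
  intro h0
  have h2 := congrArg (fun f => Polynomial.eval 1 f) h0
  simp only [Qt, eval_comp, eval_sub, eval_one, eval_X, sub_self, eval_zero] at h2
  rw [eval_prod] at h2
  have h3 : ∏ k ∈ K, eval 0 (1 - X ^ (2 * k) : ℝ[X]) = 1 := by
    apply Finset.prod_eq_one
    intro k hk
    have h1 : k ≠ 0 := by have := hK k hk; omega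
    simp [h1]
  rw [h3] at h2
  exact one_ne_zero h2

theorem tl_type (K : Finset ℕ) (hK : ∀ k ∈ K, 1 ≤ k) (A B : ℕ → ℕ) :
    ∃ P : ℝ[X], P.natDegree ≤ 2 * ∑ k ∈ K, k ∧
      (Qt K : PowerSeries ℝ) * θ (tl (prodT K A B)) =
        (P : PowerSeries ℝ) * tl (prodT K A B) := by
  obtain ⟨P, hP, hPe⟩ := exists_P K hK A B
  refine ⟨-(X * P.comp (1 - X)), ?_, ?_⟩
  · rw [natDegree_neg]
    rcases hP with h0 | h0
    · rw [h0, zero_comp, mul_zero, natDegree_zero]; exact Nat.zero_le _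
    · refine le_trans natDegree_mul_le ?_
      have h5 : (Polynomial.X : Polynomial ℝ).natDegree ≤ 1 := Polynomial.natDegree_X_le
      have h6 := natDegree_comp_one_sub P
      omega
  · rw [tl, θ_coe, ← Polynomial.coe_mul, ← Polynomial.coe_mul]
    refine congrArg _ ?_
    rw [derivative_comp]
    have h1 : derivative (1 - X : ℝ[X]) = -1 := by simp
    have h2 := congrArg (fun f => Polynomial.comp f (1 - X)) hPe
    simp only [mul_comp] at h2
    rw [h1]
    have h3 : (Qt K : ℝ[X]) * (derivative (prodT K A B)).comp (1 - X) =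
        P.comp (1 - X) * (prodT K A B).comp (1 - X) := h2
    linear_combination -X * h3

theorem type_mul {Q P R : ℝ[X]} {S T : PowerSeries ℝ}
    (h1 : (Q : PowerSeries ℝ) * θ S = (P : PowerSeries ℝ) * S)
    (h2 : (Q : PowerSeries ℝ) * θ T = (R : PowerSeries ℝ) * T) :
    (Q : PowerSeries ℝ) * θ (S * T) = ((P + R : ℝ[X]) : PowerSeries ℝ) * (S * T) := by
  rw [Polynomial.coe_add]
  simp only [θ, Derivation.leibniz, smul_eq_mul] at h1 h2 ⊢
  linear_combination T * h1 + S * h2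

theorem prodT_one (a b : ℕ) :
    prodT {1} (fun _ => a) (fun _ => b) = (1 + X) ^ a * (1 - X) ^ b := by
  rw [prodT, Finset.prod_singleton, pow_one]

theorem tl_one (D s : ℕ) : tl (prodT {1} (fun _ => D - s) (fun _ => s)) =
    (PowerSeries.X : PowerSeries ℝ) ^ s * (((2 - X) ^ (D - s) : ℝ[X]) : PowerSeries ℝ) := by
  rw [prodT_one, tl, mul_comp, pow_comp, pow_comp]
  have h1 : (1 + X : ℝ[X]).comp (1 - X) = 2 - X := by
    rw [add_comp, one_comp, X_comp]; ring
  have h2 : (1 - X : ℝ[X]).comp (1 - X) = X := by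
    rw [sub_comp, one_comp, X_comp]; ring
  rw [h1, h2, mul_comm, Polynomial.coe_mul, Polynomial.coe_pow, Polynomial.coe_X]

/-- The numbers `i (p - i)`. -/
theorem gaps {B p M : ℕ} (hp : M + 2 * B + 1 < p) {i j : ℕ} (hi : i ≤ p) (hj : j ≤ B) :
    (i * (p - i) < j * (p - j) → ∃ j', j' ≤ B ∧ i * (p - i) = j' * (p - j')) ∧
    (j * (p - j) < i * (p - i) → j * (p - j) + M < i * (p - i)) := by
  -- reduce to the smaller one of `i`, `p - i`
  obtain ⟨a, b, hab, hle, hσ⟩ : ∃ a b, a + b = p ∧ a ≤ b ∧ i * (p - i) = a * b := by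
    rcases le_total i (p - i) with h | h
    · exact ⟨i, p - i, by omega, h, rfl⟩
    · exact ⟨p - i, i, by omega, h, mul_comm _ _⟩
  rw [hσ]
  constructor
  · intro h
    have haj : a < j := by
      by_contra hcon
      push Not at hcon
      obtain ⟨x, rfl⟩ : ∃ x, a = j + x := ⟨a - j, by omega⟩
      obtain ⟨y, rfl⟩ : ∃ y, b = j + y := ⟨b - j, by omega⟩
      have h1 : p - j = j + x + y := by omega
      rw [h1] at h
      nlinarith [Nat.zero_le (x * y)]
    refine ⟨a, by omega, ?_⟩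
    congr 1
    omega
  · intro h
    have haj : j < a := by
      by_contra hcon
      push Not at hcon
      obtain ⟨x, rfl⟩ : ∃ x, j = a + x := ⟨j - a, by omega⟩
      obtain ⟨y, rfl⟩ : ∃ y, b = a + x + y := ⟨b - (a + x), by omega⟩
      have h1 : p - (a + x) = a + y := by omega
      rw [h1] at h
      nlinarith [Nat.zero_le (x * y)]
    obtain ⟨x, rfl⟩ : ∃ x, a = j + 1 + x := ⟨a - (j + 1), by omega⟩
    obtain ⟨y, rfl⟩ : ∃ y, b = j + 1 + y := ⟨b - (j + 1), by omega⟩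
    have h1 : p - j = j + 2 + x + y := by omega
    rw [h1]
    have h2 : M < 1 + x + y := by omega
    nlinarith [Nat.zero_le (x * y)]

theorem tau_mono {B p : ℕ} (hp : 2 * B + 1 < p) :
    StrictMono (fun j : Fin (B + 1) => j.1 * (p - j.1)) := by
  intro i j hij
  have h1 := Fin.lt_def.1 hij
  have h2 := j.2
  show i.1 * (p - i.1) < j.1 * (p - j.1)
  obtain ⟨x, hx⟩ : ∃ x, j.1 = i.1 + 1 + x := ⟨j.1 - (i.1 + 1), by omega⟩
  obtain ⟨y, hy⟩ : ∃ y, p = i.1 + j.1 + 1 + y := ⟨p - (i.1 + j.1 + 1), by omega⟩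
  have h3 : p - i.1 = j.1 + 1 + y := by omega
  have h4 : p - j.1 = i.1 + 1 + y := by omega
  rw [h3, h4, hx]
  nlinarith [Nat.zero_le (x * y)]

end Pool.Agent.U285.EG
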