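import Pool.Agent.U285.EG.B1
import Pool.Agent.U285.EG.A3
import Pool.Agent.H667R4.A1
import Mathlib.Data.Fintype.Pi

namespace Pool.Agent.U285.EG

open Polynomial

/-- All exponents of `f` are sums `∑ k ∈ K, g k * k` with `g k ≤ n`. -/
def Sp (K : Finset ℕ) (n : ℕ) (f : ℝ[X]) : Prop :=
  ∀ a, f.coeff a ≠ 0 → ∃ g : ℕ → ℕ, (∀ k, g k ≤ n) ∧ a = ∑ k ∈ K, g k * k

theorem Sp.mono {K : Finset ℕ} {n m : ℕ} (h : n ≤ m) {f : ℝ[X]} (hf : Sp K n f) :
    Sp K m f := by
  intro a ha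
  obtain ⟨g, hg, h1⟩ := hf a ha
  exact ⟨g, fun k => (hg k).trans h, h1⟩

theorem Sp.add {K : Finset ℕ} {n : ℕ} {f g : ℝ[X]} (hf : Sp K n f) (hg : Sp K n g) :
    Sp K n (f + g) := by
  intro a ha
  rw [coeff_add] at ha
  by_cases h1 : f.coeff a = 0
  · exact hg a (fun h2 => ha (by rw [h1, h2, add_zero]))
  · exact hf a h1

theorem Sp.neg {K : Finset ℕ} {n : ℕ} {f : ℝ[X]} (hf : Sp K n f) : Sp K n (-f) := by
  intro a ha
  rw [coeff_neg] at ha
  exact hf a (fun h => ha (by rw [h, neg_zero]))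

theorem Sp.sub {K : Finset ℕ} {n : ℕ} {f g : ℝ[X]} (hf : Sp K n f) (hg : Sp K n g) :
    Sp K n (f - g) := by
  rw [sub_eq_add_neg]
  exact hf.add hg.neg

theorem Sp.zero {K : Finset ℕ} {n : ℕ} : Sp K n 0 := by
  intro a ha
  exact absurd (coeff_zero a) ha

theorem Sp.C {K : Finset ℕ} {n : ℕ} (c : ℝ) : Sp K n (Polynomial.C c) := by
  intro a ha
  refine ⟨fun _ => 0, fun _ => Nat.zero_le _, ?_⟩
  rw [coeff_C] at ha
  by_cases h : a = 0
  · simp [h]
  · rw [if_neg h] at ha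
    exact absurd rfl ha

theorem Sp.one {K : Finset ℕ} {n : ℕ} : Sp K n 1 := by
  have := Sp.C (K := K) (n := n) 1
  rwa [C_1] at this

theorem Sp.mul {K : Finset ℕ} {n m : ℕ} {f g : ℝ[X]} (hf : Sp K n f) (hg : Sp K m g) :
    Sp K (n + m) (f * g) := by
  intro a ha
  rw [coeff_mul] at ha
  obtain ⟨⟨x, y⟩, hxy, h1⟩ := Finset.exists_ne_zero_of_sum_ne_zero ha
  rw [Finset.mem_antidiagonal] at hxy
  obtain ⟨g1, h2, h3⟩ := hf x (left_ne_zero_of_mul h1)
  obtain ⟨g2, h4, h5⟩ := hg y (right_ne_zero_of_mul h1)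
  refine ⟨fun k => g1 k + g2 k, fun k => Nat.add_le_add (h2 k) (h4 k), ?_⟩
  simp only [add_mul, Finset.sum_add_distrib]
  rw [← h3, ← h5]
  exact hxy.symm

theorem Sp.xder {K : Finset ℕ} {n : ℕ} {f : ℝ[X]} (hf : Sp K n f) :
    Sp K n (X * derivative f) := by
  intro a ha
  rw [H667R4.coeff_X_derivative] at ha
  exact hf a (right_ne_zero_of_mul ha)

theorem Sp.sum {K : Finset ℕ} {n : ℕ} {ι : Type*} (s : Finset ι) (f : ι → ℝ[X])
    (h : ∀ i ∈ s, Sp K n (f i)) : Sp K n (∑ i ∈ s, f i) := by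
  classical
  induction s using Finset.induction_on with
  | empty => rw [Finset.sum_empty]; exact Sp.zero
  | insert a s ha ih =>
    rw [Finset.sum_insert ha]
    exact (h a (Finset.mem_insert_self _ _)).add
      (ih (fun i hi => h i (Finset.mem_insert_of_mem hi)))

theorem Sp.prod {K : Finset ℕ} {ι : Type*} (s : Finset ι) (f : ι → ℝ[X]) (m : ι → ℕ)
    (h : ∀ i ∈ s, Sp K (m i) (f i)) : Sp K (∑ i ∈ s, m i) (∏ i ∈ s, f i) := by
  classical
  induction s using Finset.induction_on with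
  | empty => rw [Finset.prod_empty]; exact Sp.one
  | insert a s ha ih =>
    rw [Finset.sum_insert ha, Finset.prod_insert ha]
    exact (h a (Finset.mem_insert_self _ _)).mul
      (ih (fun i hi => h i (Finset.mem_insert_of_mem hi)))

theorem Sp.insert {K : Finset ℕ} {k n : ℕ} (hk : k ∉ K) {f g : ℝ[X]} (hf : Sp K n f)
    (hg : Sp {k} n g) : Sp (insert k K) n (f * g) := by
  classical
  intro a ha
  rw [coeff_mul] at ha
  obtain ⟨⟨x, y⟩, hxy, h1⟩ := Finset.exists_ne_zero_of_sum_ne_zero ha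
  rw [Finset.mem_antidiagonal] at hxy
  obtain ⟨g1, h2, h3⟩ := hf x (left_ne_zero_of_mul h1)
  obtain ⟨g2, h4, h5⟩ := hg y (right_ne_zero_of_mul h1)
  rw [Finset.sum_singleton] at h5
  refine ⟨fun j => if j = k then g2 k else g1 j, fun j => ?_, ?_⟩
  · beta_reduce
    by_cases h : j = k
    · rw [if_pos h]; exact h4 _
    · rw [if_neg h]; exact h2 _
  · rw [Finset.sum_insert hk]
    beta_reduce
    rw [if_pos rfl]
    have h6 : ∑ j ∈ K, (if j = k then g2 k else g1 j) * j = ∑ j ∈ K, g1 j * j := by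
      refine Finset.sum_congr rfl (fun j hj => ?_)
      have hjk : ¬ j = k := by
        intro h
        exact hk (h ▸ hj)
      rw [if_neg hjk]
    rw [h6, ← h3, ← h5]
    simp only at hxy
    omega

theorem Sp.single {k n : ℕ} (j : ℕ) (hj : j ≤ n) (c : ℝ) :
    Sp {k} n (Polynomial.C c * X ^ (j * k)) := by
  intro a ha
  rw [coeff_C_mul, coeff_X_pow] at ha
  refine ⟨fun _ => j, fun _ => hj, ?_⟩
  rw [Finset.sum_singleton]
  by_contra h
  rw [if_neg h, mul_zero] at ha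
  exact ha rfl

theorem Sp.card {K : Finset ℕ} {n : ℕ} {f : ℝ[X]} (hf : Sp K n f) :
    f.support.card ≤ (n + 1) ^ K.card := by
  classical
  have h1 : f.support ⊆ (Fintype.piFinset (fun _ : K => Finset.range (n + 1))).image
      (fun g => ∑ k : K, g k * k.1) := by
    intro a ha
    obtain ⟨g, hg, h2⟩ := hf a (mem_support_iff.1 ha)
    rw [Finset.mem_image]
    refine ⟨fun k => g k.1, ?_, ?_⟩
    · rw [Fintype.mem_piFinset]
      intro k
      rw [Finset.mem_range]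
      have := hg k.1
      omega
    · rw [h2]
      exact Finset.sum_coe_sort K (fun k => g k * k)
  refine (Finset.card_le_card h1).trans (Finset.card_image_le.trans ?_)
  rw [Fintype.card_piFinset]
  simp

theorem Sp.card' {K : Finset ℕ} {n : ℕ} {f : ℝ[X]} (hf : Sp K n f) :
    f.support.card ≤ n * ∑ k ∈ K, k + 1 := by
  have h1 : f.support ⊆ Finset.range (n * ∑ k ∈ K, k + 1) := by
    intro a ha
    obtain ⟨g, hg, h2⟩ := hf a (mem_support_iff.1 ha)
    rw [Finset.mem_range, h2, Finset.mul_sum]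
    exact Nat.lt_succ_of_le (Finset.sum_le_sum (fun k _ => Nat.mul_le_mul_right _ (hg k)))
  have := Finset.card_le_card h1
  rwa [Finset.card_range] at this

theorem sp_factor (k : ℕ) : Sp {k} 2 (1 - X ^ (2 * k)) := by
  have h1 := (Sp.single (k := k) (n := 2) 0 (by omega) 1).sub
    (Sp.single (k := k) (n := 2) 2 (by omega) 1)
  have h2 : (Polynomial.C 1 * X ^ (0 * k) - Polynomial.C 1 * X ^ (2 * k) : ℝ[X]) =
      1 - X ^ (2 * k) := by
    rw [C_1, zero_mul, pow_zero]; ring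
  rwa [h2] at h1

theorem sp_Q (K : Finset ℕ) : Sp K 2 (∏ k ∈ K, (1 - X ^ (2 * k) : ℝ[X])) := by
  classical
  induction K using Finset.induction_on with
  | empty => rw [Finset.prod_empty]; exact Sp.one
  | insert k K hk ih =>
    rw [Finset.prod_insert hk, mul_comm]
    exact Sp.insert hk ih (sp_factor k)

theorem exists_Ps (K : Finset ℕ) (hK : ∀ k ∈ K, 1 ≤ k) (A B : ℕ → ℕ) :
    ∃ P : ℝ[X], Sp K 2 P ∧
      (∏ k ∈ K, (1 - X ^ (2 * k) : ℝ[X])) *
        (X * derivative (∏ k ∈ K, (1 + X ^ k) ^ A k * (1 - X ^ k) ^ B k)) =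
      P * ∏ k ∈ K, (1 + X ^ k) ^ A k * (1 - X ^ k) ^ B k := by
  classical
  induction K using Finset.induction_on with
  | empty => exact ⟨0, Sp.zero, by simp⟩
  | insert k K hk ih =>
    obtain ⟨P0, hP0, hP0e⟩ := ih (fun j hj => hK j (Finset.mem_insert_of_mem hj))
    have hk1 : 1 ≤ k := hK k (Finset.mem_insert_self _ _)
    rw [Finset.prod_insert hk, Finset.prod_insert hk]
    set Q0 := ∏ k ∈ K, (1 - X ^ (2 * k) : ℝ[X]) with hQ0
    set T0 := ∏ k ∈ K, ((1 + X ^ k) ^ A k * (1 - X ^ k) ^ B k : ℝ[X]) with hT0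
    refine ⟨Q0 * (Polynomial.C ((A k : ℝ) * k - (B k : ℝ) * k) * X ^ (1 * k) -
      Polynomial.C ((A k : ℝ) * k + (B k : ℝ) * k) * X ^ (2 * k)) + P0 * (1 - X ^ (2 * k)),
      ?_, ?_⟩
    · refine Sp.add ?_ ?_
      · exact Sp.insert hk (sp_Q K)
          ((Sp.single 1 (by omega) _).sub (Sp.single 2 (by omega) _))
      · exact Sp.insert hk hP0 (sp_factor k)
    · rw [derivative_mul, derivative_mul]
      have h1 := d_add k (A k)
      have h2 := d_sub k (B k)
      have hX : (X : ℝ[X]) ^ (k - 1) * X = X ^ k := by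
        rw [← pow_succ]; congr 1; omega
      rw [C_sub, C_add, one_mul]
      linear_combination (X * Q0 * (1 - X ^ k) ^ B k * T0) * h1 +
        (X * Q0 * (1 + X ^ k) ^ A k * T0) * h2 +
        ((1 - X ^ (2 * k)) * ((1 + X ^ k) ^ A k * (1 - X ^ k) ^ B k)) * hP0e +
        (Polynomial.C ((A k : ℝ) * k) * (1 - X ^ k) - Polynomial.C ((B k : ℝ) * k) * (1 + X ^ k)) *
          Q0 * ((1 + X ^ k) ^ A k * (1 - X ^ k) ^ B k) * T0 * hX

end Pool.Agent.U285.EG
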