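import Pool.Agent.U285.EG.B5
import Pool.Agent.U285.EG.A6

namespace Pool.Agent.U285.EG

open PowerSeries

/-- One `θ` step, with sparse polynomials. -/
theorem stepθs {K : Finset ℕ} {Q P : Polynomial ℝ} (hQ : Sp K 2 Q) (hP : Sp K 2 P)
    {S : ℝ⟦X⟧} (hS : (Q : ℝ⟦X⟧) * θ S = (P : ℝ⟦X⟧) * S) (n : ℕ) :
    ∃ q : Polynomial ℝ, Sp K (n * 2) q ∧
      (Q : ℝ⟦X⟧) ^ n * θ^[n] S = (q : ℝ⟦X⟧) * S := by
  induction n with
  | zero => exact ⟨1, Sp.one, by simp⟩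
  | succ n ih =>
    obtain ⟨q, hq, hqe⟩ := ih
    have h3 : (n + 1) * 2 = n * 2 + 2 := by ring
    have h3' : (n + 1) * 2 = 0 + 2 + n * 2 := by ring
    have h3'' : (n + 1) * 2 = 2 + n * 2 := by ring
    refine ⟨Q * (Polynomial.X * Polynomial.derivative q) + q * P -
      Polynomial.C (n : ℝ) * (Polynomial.X * Polynomial.derivative Q) * q, ?_, ?_⟩
    · refine Sp.sub (Sp.add ?_ ?_) ?_
      · rw [h3'']; exact hQ.mul hq.xder
      · rw [h3]; exact hq.mul hP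
      · rw [h3']; exact ((Sp.C _).mul hQ.xder).mul hq
    · rw [Function.iterate_succ_apply']
      set F := θ^[n] S with hF
      have h1 := congrArg (fun f => θ f) hqe
      simp only [θ, Derivation.leibniz, Derivation.leibniz_pow, smul_eq_mul] at h1
      rw [PowerSeries.derivative_coe, PowerSeries.derivative_coe] at h1
      have hc : ((Polynomial.C (n : ℝ) : Polynomial ℝ) : ℝ⟦X⟧) = (n : ℝ⟦X⟧) := by
        rw [Polynomial.coe_C, map_natCast]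
      rw [Polynomial.coe_sub, Polynomial.coe_add, Polynomial.coe_mul, Polynomial.coe_mul,
        Polynomial.coe_mul, Polynomial.coe_mul, Polynomial.coe_mul, Polynomial.coe_mul, hc,
        Polynomial.coe_X]
      simp only [θ] at hS ⊢
      rcases n with _ | n
      · simp only [pow_zero, one_mul, zero_smul, mul_zero, add_zero] at h1 hqe ⊢
        simp only [zero_add, pow_one, Nat.cast_zero]
        linear_combination (Q : ℝ⟦X⟧) * h1 + (q : ℝ⟦X⟧) * hS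
      · simp only [nsmul_eq_mul, Nat.add_sub_cancel] at h1
        linear_combination (Q : ℝ⟦X⟧) * h1 - ((n + 1 : ℕ) : ℝ⟦X⟧) *
          (PowerSeries.X * (Polynomial.derivative Q : ℝ⟦X⟧)) * hqe + (q : ℝ⟦X⟧) * hS

theorem sp_det {K : Finset ℕ} {B : ℕ} (R : Fin B → Fin B → Polynomial ℝ)
    (hR : ∀ i j, Sp K (i.1 * 2) (R i j)) :
    Sp K (2 * ∑ i ∈ Finset.range B, i) (Matrix.of R).det := by
  rw [Matrix.det_apply']
  refine Sp.sum _ _ (fun σ _ => ?_)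
  have h1 : ∑ i : Fin B, (σ i).1 * 2 = 2 * ∑ i ∈ Finset.range B, i := by
    rw [Equiv.sum_comp σ (fun i : Fin B => i.1 * 2), ← Finset.sum_mul, mul_comm,
      Finset.sum_range]
  have h2 := Sp.prod (K := K) Finset.univ (fun i => (Matrix.of R) (σ i) i)
    (fun i => (σ i).1 * 2) (fun i _ => hR _ _)
  rw [h1] at h2
  have h3 : Sp K 0 (((Equiv.Perm.sign σ : ℤ) : Polynomial ℝ)) := by
    have := Sp.C (K := K) (n := 0) (((Equiv.Perm.sign σ : ℤ) : ℝ))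
    rwa [← Polynomial.C_eq_intCast] 
  have h4 := h3.mul h2
  rwa [zero_add] at h4

theorem Dd_type_sp {K : Finset ℕ} {B : ℕ} {Q : Polynomial ℝ} (hQ : Sp K 2 Q)
    {S : Fin B → ℝ⟦X⟧} {P : Fin B → Polynomial ℝ} (hP : ∀ t, Sp K 2 (P t))
    (hS : ∀ t, (Q : ℝ⟦X⟧) * θ (S t) = (P t : ℝ⟦X⟧) * S t) {h : ℝ⟦X⟧} {R : Polynomial ℝ}
    (hR : Sp K 2 R) (hh : (Q : ℝ⟦X⟧) * θ h = (R : ℝ⟦X⟧) * h) :
    ∃ Δ : Polynomial ℝ, Sp K (2 * ∑ i ∈ Finset.range (B + 1), i) Δ ∧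
      (∏ i : Fin (B + 1), (Q : ℝ⟦X⟧) ^ i.1) * Dd S h = (∏ t, S t) * h * (Δ : ℝ⟦X⟧) := by
  have hR' : ∀ i j : Fin (B + 1), ∃ q : Polynomial ℝ, Sp K (i.1 * 2) q ∧
      (Q : ℝ⟦X⟧) ^ i.1 * θ^[i.1] ((Fin.snoc S h : Fin (B + 1) → ℝ⟦X⟧) j) =
        (q : ℝ⟦X⟧) * (Fin.snoc S h : Fin (B + 1) → ℝ⟦X⟧) j := by
    intro i j
    refine Fin.lastCases ?_ ?_ j
    · rw [Fin.snoc_last]
      exact stepθs hQ hR hh i.1
    · intro t
      rw [Fin.snoc_castSucc]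
      exact stepθs hQ (hP t) (hS t) i.1
  choose q hqd hqe using hR'
  refine ⟨(Matrix.of q).det, sp_det q hqd, ?_⟩
  have e1 : (Matrix.of fun (i j : Fin (B + 1)) => (Q : ℝ⟦X⟧) ^ i.1 *
      (Matrix.of fun (i j : Fin (B + 1)) =>
        θ^[i.1] ((Fin.snoc S h : Fin (B + 1) → ℝ⟦X⟧) j)) i j) =
      Matrix.of fun (i j : Fin (B + 1)) => (Fin.snoc S h : Fin (B + 1) → ℝ⟦X⟧) j *
        (Matrix.of fun (i j : Fin (B + 1)) => (q i j : ℝ⟦X⟧)) i j := by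
    refine congrArg Matrix.of (funext fun i => funext fun j => ?_)
    rw [Matrix.of_apply, Matrix.of_apply, mul_comm ((Fin.snoc S h : Fin (B + 1) → ℝ⟦X⟧) j)]
    exact hqe i j
  have e2 := congrArg Matrix.det e1
  rw [Matrix.det_mul_column, Matrix.det_mul_row] at e2
  have e3 : (Matrix.of fun (i j : Fin (B + 1)) => (q i j : ℝ⟦X⟧)).det =
      (((Matrix.of q).det : Polynomial ℝ) : ℝ⟦X⟧) := by
    have : ∀ f : Polynomial ℝ, (f : ℝ⟦X⟧) = Polynomial.coeToPowerSeries.ringHom f :=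
      fun f => rfl
    rw [this, RingHom.map_det]
    rfl
  rw [e3] at e2
  rw [Dd, e2, Fin.prod_univ_castSucc]
  simp only [Fin.snoc_castSucc, Fin.snoc_last]

end Pool.Agent.U285.EG
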