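import Pool.Agent.U285.EG.B6
import Pool.Agent.H667R4.A4

namespace Pool.Agent.U285.EG

open PowerSeries Module
open H667R4 (od od_mul od_lt le_od pow_dvd_of_le)

theorem coe_sum' {ι : Type*} (s : Finset ι) (f : ι → Polynomial ℝ) :
    ((∑ i ∈ s, f i : Polynomial ℝ) : ℝ⟦X⟧) = ∑ i ∈ s, (f i : ℝ⟦X⟧) :=
  map_sum Polynomial.coeToPowerSeries.ringHom f s

theorem od_C_mul {c : ℝ} (hc : c ≠ 0) {f : Polynomial ℝ} (hf : f ≠ 0) :
    od (Polynomial.C c * f) = od f := by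
  rw [od_mul (Polynomial.C_ne_zero.2 hc) hf]
  have : od (Polynomial.C c) = 0 := by unfold od; exact Polynomial.rootMultiplicity_C _ _
  rw [this, zero_add]

/-- Polynomials with different orders at `1` are linearly independent. -/
theorem li_of_od {n e : ℕ} {τ : Fin n → ℕ} (hτ : StrictMono τ) {u : Fin n → Polynomial ℝ}
    (hu : ∀ j, u j ≠ 0) (ho : ∀ j, od (u j) = e + τ j) :
    LinearIndependent ℝ (fun j => (u j : ℝ⟦X⟧)) := by
  rw [Fintype.linearIndependent_iff]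
  intro g hg
  have h1 : ∑ j, Polynomial.C (g j) * u j = 0 := by
    rw [← Polynomial.coe_eq_zero_iff, coe_sum', ← hg]
    refine Finset.sum_congr rfl (fun j _ => ?_)
    rw [Polynomial.coe_mul, Polynomial.coe_C, PowerSeries.smul_eq_C_mul]
  have key : ∀ k : ℕ, ∀ j : Fin n, j.1 = k → g j = 0 := by
    intro k
    induction k using Nat.strong_induction_on with
    | _ k ih =>
      intro j hj
      by_contra hne
      have h3 : Polynomial.C (g j) * u j =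
          -∑ i ∈ Finset.univ.erase j, Polynomial.C (g i) * u i := by
        rw [← Finset.add_sum_erase _ _ (Finset.mem_univ j)] at h1
        exact eq_neg_of_add_eq_zero_left h1
      have h4 : (Polynomial.X - Polynomial.C 1) ^ (e + τ j + 1) ∣ Polynomial.C (g j) * u j := by
        rw [h3, dvd_neg]
        apply Finset.dvd_sum
        intro i hi
        have hij := (Finset.mem_erase.1 hi).1
        rcases lt_or_gt_of_ne hij with h | h
        · rw [ih i.1 (by have := Fin.lt_def.1 h; omega) i rfl, Polynomial.C_0, zero_mul]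
          exact dvd_zero _
        · apply Dvd.dvd.mul_left
          apply pow_dvd_of_le
          rw [ho i]
          have := hτ h
          omega
      have h5 := le_od (mul_ne_zero (Polynomial.C_ne_zero.2 hne) (hu j)) h4
      rw [od_C_mul hne (hu j), ho j] at h5
      omega
  exact fun j => key j.1 j rfl

theorem gap2 {B N : ℕ} {K : Finset ℕ}
    (hN : ∀ Δ : Polynomial ℝ, Sp K (2 * ∑ i ∈ Finset.range (B + 1), i) Δ → Δ.support.card ≤ N)
    {Q : Polynomial ℝ} (hQ : Sp K 2 Q) (hQ0 : Q ≠ 0)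
    {S : Fin B → ℝ⟦X⟧} {P : Fin B → Polynomial ℝ} (hP : ∀ t, Sp K 2 (P t))
    (hS : ∀ t, (Q : ℝ⟦X⟧) * θ (S t) = (P t : ℝ⟦X⟧) * S t) (hS0 : ∀ t, S t ≠ 0)
    (hli : LinearIndependent ℝ S)
    {u : ℕ → Polynomial ℝ} {R : ℕ → Polynomial ℝ} (hR : ∀ s, Sp K 2 (R s))
    (hu : ∀ s, (Q : ℝ⟦X⟧) * θ (u s : ℝ⟦X⟧) = (R s : ℝ⟦X⟧) * (u s : ℝ⟦X⟧))
    {e : ℕ} (hu0 : ∀ s, u s ≠ 0) (ho : ∀ s, od (u s) = e + s)
    {ι : Type*} (I : Finset ι) {w : ι → ℝ} (hw : ∀ i ∈ I, 0 < w i) {σ : ι → ℕ}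
    {τ : Fin (B + 1) → ℕ} (hτ : StrictMono τ) (hτI : ∀ j, ∃ i ∈ I, σ i = τ j)
    (H1 : ∀ i ∈ I, ∀ j, σ i < τ j → ∃ j', σ i = τ j')
    (H2 : ∀ i ∈ I, ∀ j, τ j < σ i → τ j + N ≤ σ i)
    (hG : ∑ i ∈ I, PowerSeries.C (w i) * (u (σ i) : ℝ⟦X⟧) ∈
      Submodule.span ℝ (Set.range S)) : False := by
  classical
  have hQc : (Q : ℝ⟦X⟧) ≠ 0 := fun h => hQ0 (Polynomial.coe_eq_zero_iff.1 h)
  have hT := fun s => Dd_type_sp hQ hP hS (hR s) (hu s)
  choose Δ hΔd hΔe using hT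
  have hΔN : ∀ s, (Δ s).support.card ≤ N := fun s => hN _ (hΔd s)
  have hprodQ : (∏ i : Fin (B + 1), (Q : ℝ⟦X⟧) ^ i.1) ≠ 0 :=
    Finset.prod_ne_zero_iff.2 (fun i _ => pow_ne_zero _ hQc)
  have hprodS : (∏ t, S t) ≠ 0 := Finset.prod_ne_zero_iff.2 (fun t _ => hS0 t)
  -- the equation
  have hE : ∑ i ∈ I, Polynomial.C (w i) * (u (σ i) * Δ (σ i)) = 0 := by
    have h1 := Dd_of_mem S hG
    rw [Dd_sum] at h1
    have h2 : (∏ t, S t) *
        ((∑ i ∈ I, Polynomial.C (w i) * (u (σ i) * Δ (σ i)) : Polynomial ℝ) : ℝ⟦X⟧) = 0 := by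
      have h3 : (∏ t, S t) *
          ((∑ i ∈ I, Polynomial.C (w i) * (u (σ i) * Δ (σ i)) : Polynomial ℝ) : ℝ⟦X⟧) =
          (∏ i : Fin (B + 1), (Q : ℝ⟦X⟧) ^ i.1) *
            ∑ i ∈ I, PowerSeries.C (w i) * Dd S (u (σ i) : ℝ⟦X⟧) := by
        rw [coe_sum', Finset.mul_sum, Finset.mul_sum]
        refine Finset.sum_congr rfl (fun i _ => ?_)
        have h4 := hΔe (σ i)
        rw [Polynomial.coe_mul, Polynomial.coe_mul, Polynomial.coe_C]
        linear_combination -PowerSeries.C (w i) * h4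
      rw [h3, h1, mul_zero]
    exact Polynomial.coe_eq_zero_iff.1 ((mul_eq_zero.1 h2).resolve_left hprodS)
  -- some `Δ (τ j)` is not zero
  have hex : ∃ j, Δ (τ j) ≠ 0 := by
    by_contra hcon
    push Not at hcon
    have hmem : ∀ j, (u (τ j) : ℝ⟦X⟧) ∈ Submodule.span ℝ (Set.range S) := by
      intro j
      apply mem_of_Dd hli
      have h1 := hΔe (τ j)
      rw [hcon j, Polynomial.coe_zero, mul_zero] at h1
      exact (mul_eq_zero.1 h1).resolve_left hprodQ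
    have hli2 : LinearIndependent ℝ (fun j => (u (τ j) : ℝ⟦X⟧)) :=
      li_of_od hτ (fun j => hu0 (τ j)) (fun j => ho (τ j))
    have hfd : FiniteDimensional ℝ (Submodule.span ℝ (Set.range S)) :=
      FiniteDimensional.span_of_finite ℝ (Set.finite_range S)
    have hli3 : LinearIndependent ℝ
        (fun j => (⟨(u (τ j) : ℝ⟦X⟧), hmem j⟩ : Submodule.span ℝ (Set.range S))) := by
      apply LinearIndependent.of_comp (Submodule.span ℝ (Set.range S)).subtype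
      exact hli2
    have h5 := hli3.fintype_card_le_finrank
    have h6 := finrank_range_le_card (R := ℝ) S
    rw [Fintype.card_fin] at h5 h6
    have h7 : finrank ℝ (Submodule.span ℝ (Set.range S)) ≤ B := h6
    omega
  obtain ⟨j0, hj0, hmin⟩ : ∃ j0, Δ (τ j0) ≠ 0 ∧ ∀ j < j0, Δ (τ j) = 0 := by
    obtain ⟨j0, h1, h2⟩ := WellFounded.has_min (wellFounded_lt (α := Fin (B + 1)))
      {j | Δ (τ j) ≠ 0} hex
    refine ⟨j0, h1, fun j hj => ?_⟩
    by_contra hcon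
    exact h2 j hcon hj
  -- isolate the order `τ j0`
  have hsplit := Finset.sum_filter_add_sum_filter_not I (fun i => σ i = τ j0)
    (fun i => Polynomial.C (w i) * (u (σ i) * Δ (σ i)))
  rw [hE] at hsplit
  have hfirst : ∑ i ∈ I.filter (fun i => σ i = τ j0), Polynomial.C (w i) * (u (σ i) * Δ (σ i)) =
      Polynomial.C (∑ i ∈ I.filter (fun i => σ i = τ j0), w i) * (u (τ j0) * Δ (τ j0)) := by
    rw [map_sum, Finset.sum_mul]
    refine Finset.sum_congr rfl (fun i hi => ?_)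
    rw [(Finset.mem_filter.1 hi).2]
  have hsecond : (Polynomial.X - Polynomial.C 1) ^ (e + τ j0 + N) ∣
      ∑ i ∈ I.filter (fun i => ¬ σ i = τ j0), Polynomial.C (w i) * (u (σ i) * Δ (σ i)) := by
    apply Finset.dvd_sum
    intro i hi
    obtain ⟨hiI, hne⟩ := Finset.mem_filter.1 hi
    rcases lt_or_gt_of_ne hne with h | h
    · obtain ⟨j', hj'⟩ := H1 i hiI j0 h
      have h8 : j' < j0 := by
        rw [hj'] at h
        exact hτ.lt_iff_lt.1 h
      rw [hj', hmin j' h8, mul_zero, mul_zero]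
      exact dvd_zero _
    · have h9 := H2 i hiI j0 h
      refine Dvd.dvd.mul_left (Dvd.dvd.mul_right (pow_dvd_of_le ?_) _) _
      rw [ho]
      omega
  have hW : 0 < ∑ i ∈ I.filter (fun i => σ i = τ j0), w i := by
    obtain ⟨i, hi, hiτ⟩ := hτI j0
    exact Finset.sum_pos (fun i hi => hw i (Finset.mem_filter.1 hi).1)
      ⟨i, Finset.mem_filter.2 ⟨hi, hiτ⟩⟩
  set W0 := ∑ i ∈ I.filter (fun i => σ i = τ j0), w i with hW0
  rw [hfirst] at hsplit
  have hdv : (Polynomial.X - Polynomial.C 1) ^ (e + τ j0 + N) ∣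
      Polynomial.C W0 * (u (τ j0) * Δ (τ j0)) := by
    rw [eq_neg_of_add_eq_zero_left hsplit]
    exact (dvd_neg).2 hsecond
  have hne : u (τ j0) * Δ (τ j0) ≠ 0 := mul_ne_zero (hu0 _) hj0
  have h5 := le_od (mul_ne_zero (Polynomial.C_ne_zero.2 hW.ne') hne) hdv
  rw [od_C_mul hW.ne' hne, od_mul (hu0 _) hj0, ho] at h5
  have h6 := od_lt hj0 (hΔN (τ j0))
  omega

theorem gap3 {B N : ℕ} {K : Finset ℕ}
    (hN : ∀ Δ : Polynomial ℝ, Sp K (2 * ∑ i ∈ Finset.range (B + 1), i) Δ → Δ.support.card ≤ N)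
    {Q : Polynomial ℝ} (hQ : Sp K 2 Q) (hQ0 : Q ≠ 0)
    {S : Fin B → ℝ⟦X⟧} {P : Fin B → Polynomial ℝ} (hP : ∀ t, Sp K 2 (P t))
    (hS : ∀ t, (Q : ℝ⟦X⟧) * θ (S t) = (P t : ℝ⟦X⟧) * S t) (hS0 : ∀ t, S t ≠ 0)
    {u : ℕ → Polynomial ℝ} {R : ℕ → Polynomial ℝ} (hR : ∀ s, Sp K 2 (R s))
    (hu : ∀ s, (Q : ℝ⟦X⟧) * θ (u s : ℝ⟦X⟧) = (R s : ℝ⟦X⟧) * (u s : ℝ⟦X⟧))
    {e : ℕ} (hu0 : ∀ s, u s ≠ 0) (ho : ∀ s, od (u s) = e + s)
    {ι : Type*} (I : Finset ι) {w : ι → ℝ} (hw : ∀ i ∈ I, 0 < w i) {σ : ι → ℕ}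
    {τ : Fin (B + 1) → ℕ} (hτ : StrictMono τ) (hτI : ∀ j, ∃ i ∈ I, σ i = τ j)
    (H1 : ∀ i ∈ I, ∀ j, σ i < τ j → ∃ j', σ i = τ j')
    (H2 : ∀ i ∈ I, ∀ j, τ j < σ i → τ j + N ≤ σ i)
    (hG : ∑ i ∈ I, PowerSeries.C (w i) * (u (σ i) : ℝ⟦X⟧) ∈
      Submodule.span ℝ (Set.range S)) : False := by
  obtain ⟨B', f, hB', hf, hspan, hli⟩ : ∃ (B' : ℕ) (f : Fin B' → ℝ⟦X⟧), B' ≤ B ∧
      (∀ i, f i ∈ Set.range S) ∧
      Submodule.span ℝ (Set.range f) = Submodule.span ℝ (Set.range S) ∧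
      LinearIndependent ℝ f := by
    have hfd0 : FiniteDimensional ℝ (Submodule.span ℝ (Set.range S)) :=
      FiniteDimensional.span_of_finite ℝ (Set.finite_range S)
    obtain ⟨f, hf, hspan, hli⟩ := Submodule.exists_fun_fin_finrank_span_eq ℝ (Set.range S)
    refine ⟨_, f, ?_, hf, hspan, hli⟩
    have h6 := finrank_range_le_card (R := ℝ) S
    rw [Fintype.card_fin] at h6
    exact h6
  choose t ht using hf
  have hle : B' + 1 ≤ B + 1 := by omega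
  refine gap2 (B := B') (N := N) (K := K) (fun Δ hΔ => hN Δ (hΔ.mono ?_)) hQ hQ0 (S := f)
    (P := fun i => P (t i)) (fun i => hP _)
    (fun i => ?_) (fun i => ?_) hli hR hu hu0 ho I hw (σ := σ)
    (τ := fun j => τ (Fin.castLE hle j)) ?_ (fun j => hτI _) ?_ (fun i hi j h => H2 i hi _ h) ?_
  · refine Nat.mul_le_mul_left 2 ?_
    exact Finset.sum_le_sum_of_subset (Finset.range_mono hle)
  · rw [← ht i]; exact hS _
  · rw [← ht i]; exact hS0 _
  · intro a b hab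
    exact hτ (by
      rw [Fin.lt_def] at hab ⊢
      exact hab)
  · intro i hi j h
    obtain ⟨j', hj'⟩ := H1 i hi _ h
    have h8 : j' < Fin.castLE hle j := by
      rw [hj'] at h
      exact hτ.lt_iff_lt.1 h
    have h9 : j'.1 < B' + 1 := lt_trans (Fin.lt_def.1 h8) j.2
    refine ⟨⟨j'.1, h9⟩, ?_⟩
    rw [hj']
    rfl
  · rw [hspan]; exact hG

end Pool.Agent.U285.EG
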