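import Pool.Agent.U285.EG.B3
import Pool.Agent.U285.EG.B7

namespace Pool.Agent.U285.EG

open Polynomial

theorem prodT_type_sp (K : Finset ℕ) (hK : ∀ k ∈ K, 1 ≤ k) (A B : ℕ → ℕ) :
    ∃ P : ℝ[X], Sp K 2 P ∧
      ((∏ k ∈ K, (1 - X ^ (2 * k) : ℝ[X]) : ℝ[X]) : PowerSeries ℝ) *
        θ (prodT K A B : PowerSeries ℝ) = (P : PowerSeries ℝ) * (prodT K A B : PowerSeries ℝ) := by
  obtain ⟨P, hP, hPe⟩ := exists_Ps K hK A B
  refine ⟨P, hP, ?_⟩
  rw [θ_coe, ← Polynomial.coe_mul, ← Polynomial.coe_mul]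
  exact congrArg _ hPe

/-- The polynomial identity is impossible, sharper form. -/
theorem no_identity2 {B p D n N : ℕ} {K : Finset ℕ} (hK : ∀ k ∈ K, 1 ≤ k)
    (hNdef : N = min ((B * (B + 1) + 1) ^ (insert 1 K).card)
      (B * (B + 1) * ∑ k ∈ insert 1 K, k + 1))
    (hp : N + 2 * B < p)
    (c : Fin B → ℝ) (A A' : Fin B → ℕ → ℕ)
    (h : ∑ i ∈ Finset.range (p + 1), C ((1 / 2 : ℝ) ^ p * (p.choose i : ℝ)) *
      (prodT K (fun _ => n) (fun _ => n) *
        ((1 + X) ^ (D - i * (p - i)) * (1 - X) ^ (i * (p - i)))) =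
      ∑ t, C (c t) * prodT K (A t) (A' t)) : False := by
  classical
  set K' : Finset ℕ := insert 1 K with hK'
  have hK'1 : ∀ k ∈ K', 1 ≤ k := by
    intro k hk
    rcases Finset.mem_insert.1 hk with h1 | h1
    · omega
    · exact hK k h1
  have hsub : K ⊆ K' := Finset.subset_insert _ _
  have hsub1 : {1} ⊆ K' := by
    intro k hk
    rw [Finset.mem_singleton.1 hk]
    exact Finset.mem_insert_self _ _
  set Q : ℝ[X] := ∏ k ∈ K', (1 - X ^ (2 * k) : ℝ[X]) with hQdef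
  have hQ0 : Q ≠ 0 := by
    rw [hQdef, Finset.prod_ne_zero_iff]
    intro k hk
    exact H667R4.one_sub_X_pow_ne (by have := hK'1 k hk; omega)
  have hS : ∀ t, ∃ P : ℝ[X], Sp K' 2 P ∧
      (Q : PowerSeries ℝ) * θ (prodT K (A t) (A' t) : PowerSeries ℝ) =
        (P : PowerSeries ℝ) * (prodT K (A t) (A' t) : PowerSeries ℝ) := by
    intro t
    rw [prodT_ext hsub]
    exact prodT_type_sp K' hK'1 _ _
  choose P hPd hPe using hS
  obtain ⟨P0, hP0d, hP0e⟩ : ∃ P : ℝ[X], Sp K' 2 P ∧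
      (Q : PowerSeries ℝ) * θ (prodT K (fun _ => n) (fun _ => n) : PowerSeries ℝ) =
        (P : PowerSeries ℝ) * (prodT K (fun _ => n) (fun _ => n) : PowerSeries ℝ) := by
    rw [prodT_ext hsub]
    exact prodT_type_sp K' hK'1 _ _
  have hU : ∀ s, ∃ P : ℝ[X], Sp K' 2 P ∧
      (Q : PowerSeries ℝ) * θ (prodT {1} (fun _ => D - s) (fun _ => s) : PowerSeries ℝ) =
        (P : PowerSeries ℝ) * (prodT {1} (fun _ => D - s) (fun _ => s) : PowerSeries ℝ) := by
    intro s
    rw [prodT_ext hsub1]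
    exact prodT_type_sp K' hK'1 _ _
  choose R hRd hRe using hU
  have hprod0 : ∀ (A B : ℕ → ℕ), prodT K A B ≠ 0 := by
    intro A B
    rw [prodT, Finset.prod_ne_zero_iff]
    intro k hk
    exact mul_ne_zero (pow_ne_zero _ (H667R4.one_add_X_pow_ne k))
      (pow_ne_zero _ (H667R4.one_sub_X_pow_ne (hK k hk)))
  set M0 := prodT K (fun _ => n) (fun _ => n) with hM0def
  have hM0 : M0 ≠ 0 := hprod0 _ _
  have hN1 : 1 ≤ N := by
    rw [hNdef]
    exact le_min (Nat.one_le_pow _ _ (by omega)) (by omega)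
  have hB : 2 * B + 1 < p := by omega
  have h2sum : 2 * ∑ i ∈ Finset.range (B + 1), i = B * (B + 1) := by
    have h1 := Finset.sum_range_id_mul_two (B + 1)
    rw [Nat.add_sub_cancel] at h1
    linarith
  have hNle : ∀ Δ : ℝ[X], Sp K' (2 * ∑ i ∈ Finset.range (B + 1), i) Δ →
      Δ.support.card ≤ N := by
    intro Δ hΔ
    rw [h2sum] at hΔ
    rw [hNdef]
    refine le_min ?_ ?_
    · exact hΔ.card
    · exact hΔ.card'
  have hUs : ∀ s, H667R4.Us M0 D s = M0 * prodT {1} (fun _ => D - s) (fun _ => s) := by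
    intro s
    rw [H667R4.Us, prodT_one]
  refine gap3 (B := B) (N := N) (K := K') hNle (sp_Q K') hQ0
    (S := fun t => (prodT K (A t) (A' t) : PowerSeries ℝ)) (P := P) hPd hPe
    (fun t h0 => hprod0 _ _ (Polynomial.coe_eq_zero_iff.1 h0))
    (u := fun s => H667R4.Us M0 D s)
    (R := fun s => P0 + R s)
    (fun s => hP0d.add (hRd s))
    (fun s => ?_)
    (e := H667R4.od M0) (fun s => H667R4.Us_ne M0 hM0 D s) (fun s => H667R4.od_Us M0 hM0 D s)
    (Finset.range (p + 1)) (w := fun i => (1 / 2 : ℝ) ^ p * (p.choose i : ℝ)) ?_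
    (σ := fun i => i * (p - i)) (τ := fun j => j.1 * (p - j.1)) (tau_mono hB) ?_ ?_ ?_ ?_
  · rw [hUs, Polynomial.coe_mul]
    exact type_mul hP0e (hRe s)
  · intro i hi
    have h1 : 0 < p.choose i := Nat.choose_pos (by have := Finset.mem_range.1 hi; omega)
    positivity
  · intro j
    exact ⟨j.1, Finset.mem_range.2 (by have := j.2; omega), rfl⟩
  · intro i hi j hlt
    obtain ⟨j', hj', he⟩ := (gaps (B := B) (M := N - 1) (by omega)
      (by have := Finset.mem_range.1 hi; omega : i ≤ p)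
      (by have := j.2; omega : j.1 ≤ B)).1 hlt
    exact ⟨⟨j', by omega⟩, he⟩
  · intro i hi j hlt
    have h1 := (gaps (B := B) (M := N - 1) (by omega)
      (by have := Finset.mem_range.1 hi; omega : i ≤ p)
      (by have := j.2; omega : j.1 ≤ B)).2 hlt
    omega
  · rw [Submodule.mem_span_range_iff_exists_fun]
    refine ⟨c, ?_⟩
    have h2 := congrArg (fun f : ℝ[X] => (f : PowerSeries ℝ)) h
    beta_reduce at h2
    rw [coe_sum', coe_sum'] at h2
    have h3 : ∀ t, ((C (c t) * prodT K (A t) (A' t) : ℝ[X]) : PowerSeries ℝ) =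
        c t • (prodT K (A t) (A' t) : PowerSeries ℝ) := by
      intro t
      rw [Polynomial.coe_mul, Polynomial.coe_C, PowerSeries.smul_eq_C_mul]
    rw [Finset.sum_congr rfl (fun t _ => h3 t)] at h2
    rw [← h2]
    refine Finset.sum_congr rfl (fun i _ => ?_)
    rw [Polynomial.coe_mul, Polynomial.coe_C]
    rfl

end Pool.Agent.U285.EG
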