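import Mathlib.Combinatorics.SimpleGraph.CycleGraph
import Mathlib.Combinatorics.SimpleGraph.DegreeSum
import Mathlib.Combinatorics.SimpleGraph.Finite
import Mathlib.Combinatorics.SimpleGraph.Maps
import Mathlib.Data.Set.Card
import Mathlib.Data.Real.Basic
import Mathlib.Algebra.Polynomial.Eval.Degree
import Mathlib.Tactic

namespace Pool.Agent.U285.EG

/-- A graph is Eulerian if it is connected and all its degrees are even. -/
def IsEulerian {p : ℕ} (G : SimpleGraph (Fin p)) : Prop :=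
  (∀ v, Even (G.neighborSet v).ncard) ∧ G.Connected

/-- Isomorphism of graphs with vertex set `Fin p`. -/
def isoSetoid (p : ℕ) : Setoid (SimpleGraph (Fin p)) where
  r G H := Nonempty (G ≃g H)
  iseqv := ⟨fun _ => ⟨SimpleGraph.Iso.refl⟩, fun ⟨f⟩ => ⟨f.symm⟩, fun ⟨f⟩ ⟨g⟩ => ⟨f.trans g⟩⟩

/-- `u_{p,q}`: the number of isomorphism classes of Eulerian graphs with `p` vertices and
`q` edges. -/
noncomputable def u (p q : ℕ) : ℕ :=
  Set.ncard {C : Quotient (isoSetoid p) | ∃ G : SimpleGraph (Fin p),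
    Quotient.mk (isoSetoid p) G = C ∧ IsEulerian G ∧ G.edgeSet.ncard = q}

/-- `U_p(x) = ∑_q u_{p,q} x ^ q` (a graph on `p` vertices has at most `p.choose 2` edges). -/
noncomputable def U (p : ℕ) (x : ℝ) : ℝ :=
  ∑ q ∈ Finset.range (p.choose 2 + 1), (u p q : ℝ) * x ^ q

open Classical in
/-- `V_α(x) = ∑_G x ^ |E(G)|`, over all Eulerian graphs `G` on `Fin p` with `α(G) = G`. -/
noncomputable def V {p : ℕ} (α : Equiv.Perm (Fin p)) (x : ℝ) : ℝ :=
  ∑ G : SimpleGraph (Fin p) with (IsEulerian G ∧ G.map α = G), x ^ G.edgeSet.ncard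

theorem ncard_neighborSet {p : ℕ} (G : SimpleGraph (Fin p)) [DecidableRel G.Adj] (v : Fin p) :
    (G.neighborSet v).ncard = G.degree v := by
  rw [← SimpleGraph.card_neighborSet_eq_degree, Set.ncard_eq_toFinset_card', Set.toFinset_card]

theorem ncard_edgeSet {p : ℕ} (G : SimpleGraph (Fin p)) [DecidableRel G.Adj] :
    G.edgeSet.ncard = G.edgeFinset.card := by
  rw [Set.ncard_eq_toFinset_card', SimpleGraph.edgeFinset]

theorem le_edges {p : ℕ} (hp : 2 ≤ p) {G : SimpleGraph (Fin p)} (hG : IsEulerian G) :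
    p ≤ G.edgeSet.ncard := by
  classical
  have hnt : Nontrivial (Fin p) := Fin.nontrivial_iff_two_le.2 hp
  have hdeg : ∀ v, 2 ≤ G.degree v := by
    intro v
    have h1 := hG.2.preconnected.degree_pos_of_nontrivial v
    have h2 := hG.1 v
    rw [ncard_neighborSet] at h2
    obtain ⟨r, hr⟩ := h2
    omega
  have h3 := G.sum_degrees_eq_twice_card_edges
  have h4 : ∑ v : Fin p, 2 ≤ ∑ v : Fin p, G.degree v := Finset.sum_le_sum (fun v _ => hdeg v)
  rw [Finset.sum_const, Finset.card_univ, Fintype.card_fin, smul_eq_mul] at h4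
  rw [ncard_edgeSet]
  omega

theorem edges_le {p : ℕ} (G : SimpleGraph (Fin p)) : G.edgeSet.ncard ≤ p.choose 2 := by
  classical
  rw [ncard_edgeSet]
  have := G.card_edgeFinset_le_card_choose_two
  rwa [Fintype.card_fin] at this

theorem exists_eulerian {p : ℕ} (hp : 3 ≤ p) : ∃ G : SimpleGraph (Fin p), IsEulerian G := by
  obtain ⟨n, rfl⟩ : ∃ n, p = n + 3 := ⟨p - 3, by omega⟩
  refine ⟨SimpleGraph.cycleGraph (n + 3), ?_, SimpleGraph.cycleGraph_connected⟩
  intro v
  rw [ncard_neighborSet, SimpleGraph.cycleGraph_degree_three_le]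
  exact even_two

theorem u_eq_zero {p q : ℕ} (hp : 2 ≤ p) (hq : q < p) : u p q = 0 := by
  rw [u, Set.ncard_eq_zero (Set.toFinite _)]
  rw [Set.eq_empty_iff_forall_notMem]
  rintro C ⟨G, _, hG, hGq⟩
  have := le_edges hp hG
  omega

theorem u_pos {p : ℕ} {G : SimpleGraph (Fin p)} (hG : IsEulerian G) :
    0 < u p G.edgeSet.ncard := by
  rw [u, Set.ncard_pos (Set.toFinite _)]
  exact ⟨_, G, rfl, hG, rfl⟩

open Polynomial in
/-- The polynomial `U_p`. -/
noncomputable def Upoly (p : ℕ) : ℝ[X] :=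
  ∑ q ∈ Finset.range (p.choose 2 + 1), C (u p q : ℝ) * X ^ q

open Polynomial in
theorem eval_Upoly (p : ℕ) (x : ℝ) : (Upoly p).eval x = U p x := by
  rw [Upoly, eval_finsetSum, U]
  exact Finset.sum_congr rfl (fun q _ => by simp)

open Polynomial in
theorem dvd_Upoly {p : ℕ} (hp : 2 ≤ p) : (X : ℝ[X]) ^ p ∣ Upoly p := by
  apply Finset.dvd_sum
  intro q _
  by_cases hq : q < p
  · rw [u_eq_zero hp hq]
    simp
  · exact Dvd.dvd.mul_left (pow_dvd_pow _ (by omega)) _

open Polynomial in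
theorem Upoly_ne {p : ℕ} (hp : 3 ≤ p) : Upoly p ≠ 0 := by
  intro h0
  obtain ⟨G, hG⟩ := exists_eulerian hp
  have h1 : 0 < U p (1 / 2) := by
    rw [U]
    apply Finset.sum_pos'
    · intro q _
      positivity
    · refine ⟨G.edgeSet.ncard, Finset.mem_range.2 (Nat.lt_succ_of_le (edges_le G)), ?_⟩
      have := u_pos hG
      positivity
  rw [← eval_Upoly, h0, eval_zero] at h1
  exact lt_irrefl _ h1

open Polynomial Classical in
/-- The polynomial `V_α`. -/
noncomputable def Vpoly {p : ℕ} (α : Equiv.Perm (Fin p)) : ℝ[X] :=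
  ∑ G : SimpleGraph (Fin p) with (IsEulerian G ∧ G.map α = G), X ^ G.edgeSet.ncard

open Polynomial in
theorem eval_Vpoly {p : ℕ} (α : Equiv.Perm (Fin p)) (x : ℝ) : (Vpoly α).eval x = V α x := by
  classical
  rw [Vpoly, eval_finsetSum, V]
  exact Finset.sum_congr rfl (fun q _ => by simp)

open Polynomial in
theorem dvd_Vpoly {p : ℕ} (hp : 2 ≤ p) (α : Equiv.Perm (Fin p)) :
    (X : ℝ[X]) ^ p ∣ Vpoly α := by
  classical
  apply Finset.dvd_sum
  intro G hG
  rw [Finset.mem_filter] at hG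
  exact pow_dvd_pow _ (le_edges hp hG.2.1)

open Polynomial in
theorem Vpoly_ne {p : ℕ} (α : Equiv.Perm (Fin p))
    (h : ∃ G : SimpleGraph (Fin p), IsEulerian G ∧ G.map α = G) : Vpoly α ≠ 0 := by
  classical
  intro h0
  obtain ⟨G, hG⟩ := h
  have h1 : 0 < V α (1 / 2) := by
    rw [V]
    apply Finset.sum_pos'
    · intro q _
      positivity
    · exact ⟨G, Finset.mem_filter.2 ⟨Finset.mem_univ _, hG⟩, by positivity⟩
  rw [← eval_Vpoly, h0, eval_zero] at h1
  exact lt_irrefl _ h1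

end Pool.Agent.U285.EG
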